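import Pool.Agent.Helper15.QD.Reg

/-!
# Block QR-W: few functions suffice on the closure of a small set

For every set `B` of points and `U` there is a set `F ⊆ U` of functions, `#F ≤ max #B ℵ₀`, which
separates the points of `closure B` as well as `U` does.

Proof. Suppose not; let `λ = max #B ℵ₀` and `κ = succ λ`, regular uncountable. By well-founded recursion
on `κ.ord.ToType` choose `g α` with `inr (g α) ∈ U` and `p α, q α ∈ closure B` such that
`p α`, `q α` are equivalent for `{inr (g β) | β < α}` (a set of cardinality `≤ λ`, so it does not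
work) and `g α (p α) ≠ g α (q α)`. Let `M α = {inl b | b ∈ B} ∪ {inr (g β) | β ≤ α}`, of cardinality
`≤ λ < κ`. Let `E = {α | ∃ β, β < α}`; for `α ∈ E` let `c α` enumerate (as `inl`) a countable nonempty
subset of `B` whose closure contains `p α` and `q α` (tightness). `bad_misses_club` gives an unbounded `C`
disjoint from `E`: impossible.
-/

set_option autoImplicit false

open Set Cardinal

namespace Pool.Agent.Helper15.QD

open Pool.Agent.Helper19.QR
open Pool.Agent.Helper15.CQ (DR)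

variable {X : Type} [TopologicalSpace X]

theorem few_functions (h : DR) (hpp : ∀ U : Set (X ⊕ C(X, ℝ)), #U ≤ 𝔠 → PP U)
    (ht : Tight X) (B : Set X) (U : Set (X ⊕ C(X, ℝ))) :
    ∃ F ⊆ U, #F ≤ max #B ℵ₀ ∧
      ∀ p ∈ closure B, ∀ q ∈ closure B, Eqv F p q → Eqv U p q := by
  classical
  by_contra hcon
  have hstep : ∀ F : Set (X ⊕ C(X, ℝ)), ∃ t : X × X × C(X, ℝ), F ⊆ U → #F ≤ max #B ℵ₀ →
      t.1 ∈ closure B ∧ t.2.1 ∈ closure B ∧ Eqv F t.1 t.2.1 ∧ Sum.inr t.2.2 ∈ U ∧
        t.2.2 t.1 ≠ t.2.2 t.2.1 := by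
    intro F
    by_cases hF : F ⊆ U ∧ #F ≤ max #B ℵ₀
    · by_contra hn
      apply hcon
      refine ⟨F, hF.1, hF.2, ?_⟩
      intro p hp q hq hpq f hf
      by_contra hne
      exact hn ⟨(p, q, f), fun _ _ => ⟨hp, hq, hpq, hf, hne⟩⟩
    · have hX : Nonempty X := by
        by_contra hne
        rw [not_nonempty_iff] at hne
        apply hcon
        refine ⟨∅, empty_subset _, ?_, ?_⟩
        · simp
        · intro p hp
          exact (hne.false p).elim
      obtain ⟨x⟩ := hX
      exact ⟨(x, x, ContinuousMap.const X 0), fun h1 h2 => (hF ⟨h1, h2⟩).elim⟩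
  choose step hstep using hstep
  set lam : Cardinal.{0} := max #B ℵ₀ with hlam
  have hκ : (Order.succ lam).IsRegular := isRegular_succ (le_max_right _ _)
  have h0 : ℵ₀ < Order.succ lam := lt_of_le_of_lt (le_max_right _ _) (Order.lt_succ lam)
  let I := (Order.succ lam).ord.ToType
  have wf : WellFounded (fun a b : I => a < b) := wellFounded_lt
  let T : I → X × X × C(X, ℝ) := wf.fix fun α T' =>
    step {x | ∃ (β : I) (hβ : β < α), x = Sum.inr (T' β hβ).2.2}
  have hT : ∀ α, T α = step {x | ∃ β, β < α ∧ x = Sum.inr (T β).2.2} := by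
    intro α
    have h1 := wf.fix_eq (C := fun _ => X × X × C(X, ℝ)) (fun α T' =>
      step {x | ∃ (β : I) (hβ : β < α), x = Sum.inr (T' β hβ).2.2}) α
    rw [show T α = _ from h1]
    congr 1
    ext x
    constructor
    · rintro ⟨β, hβ, hx⟩
      exact ⟨β, hβ, hx⟩
    · rintro ⟨β, hβ, hx⟩
      exact ⟨β, hβ, hx⟩
  have hcardI : ∀ α : I, #(Iio α) ≤ lam := by
    intro α
    exact Order.lt_succ_iff.1 (mk_Iio_ord_toType α)
  have hcardF : ∀ α : I, #({x | ∃ β, β < α ∧ x = Sum.inr (T β).2.2} : Set (X ⊕ C(X, ℝ))) ≤ lam := by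
    intro α
    have h1 : ({x | ∃ β, β < α ∧ x = Sum.inr (T β).2.2} : Set (X ⊕ C(X, ℝ))) =
        (fun β => Sum.inr (T β).2.2) '' Iio α := by
      ext x
      constructor
      · rintro ⟨β, hβ, hx⟩
        exact ⟨β, hβ, hx.symm⟩
      · rintro ⟨β, hβ, hx⟩
        exact ⟨β, hβ, hx.symm⟩
    rw [h1]
    exact mk_image_le.trans (hcardI α)
  have hTU : ∀ α, Sum.inr (T α).2.2 ∈ U := by
    intro α
    induction α using wf.induction with
    | h α ih =>
      rw [hT α]
      refine (hstep _ ?_ (hcardF α)).2.2.2.1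
      rintro x ⟨β, hβ, rfl⟩
      exact ih β hβ
  have hTp : ∀ α, (T α).1 ∈ closure B ∧ (T α).2.1 ∈ closure B ∧
      Eqv {x | ∃ β, β < α ∧ x = Sum.inr (T β).2.2} (T α).1 (T α).2.1 ∧
        (T α).2.2 (T α).1 ≠ (T α).2.2 (T α).2.1 := by
    intro α
    have hsub : ({x | ∃ β, β < α ∧ x = Sum.inr (T β).2.2} : Set (X ⊕ C(X, ℝ))) ⊆ U := by
      rintro x ⟨β, hβ, rfl⟩
      exact hTU β
    have h1 := hstep _ hsub (hcardF α)
    rw [← hT α] at h1
    exact ⟨h1.1, h1.2.1, h1.2.2.1, h1.2.2.2.2⟩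
  have hD : ∀ α, ∃ d : ℕ → X, (∀ n, d n ∈ B) ∧ (T α).1 ∈ closure (range d) ∧
      (T α).2.1 ∈ closure (range d) := by
    intro α
    obtain ⟨D1, hD1, hc1, hp1⟩ := ht B _ (hTp α).1
    obtain ⟨D2, hD2, hc2, hp2⟩ := ht B _ (hTp α).2.1
    have hne : (D1 ∪ D2).Nonempty := by
      have : D1.Nonempty := by
        rw [← closure_nonempty_iff]
        exact ⟨_, hp1⟩
      exact this.mono subset_union_left
    obtain ⟨d, hd⟩ := (hc1.union hc2).exists_eq_range hne
    refine ⟨d, ?_, ?_, ?_⟩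
    · intro n
      have : d n ∈ D1 ∪ D2 := by
        rw [hd]
        exact mem_range_self n
      exact union_subset hD1 hD2 this
    · rw [← hd]
      exact closure_mono subset_union_left hp1
    · rw [← hd]
      exact closure_mono subset_union_right hp2
  choose d hdB hd1 hd2 using hD
  have hpts : ∀ α, pts (range fun n => (Sum.inl (d α n) : X ⊕ C(X, ℝ))) = range (d α) := by
    intro α
    ext x
    constructor
    · rintro ⟨n, hn⟩
      exact ⟨n, Sum.inl_injective hn⟩
    · rintro ⟨n, hn⟩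
      exact ⟨n, congrArg Sum.inl hn⟩
  let M : I → Set (X ⊕ C(X, ℝ)) := fun α =>
    Sum.inl '' B ∪ (fun β => Sum.inr (T β).2.2) '' Iic α
  have hM : Monotone M := by
    intro α β hab
    exact union_subset_union_right _ (image_mono (Iic_subset_Iic.2 hab))
  have hMcard : ∀ α, #(M α) < Order.succ lam := by
    intro α
    refine Order.lt_succ_iff.2 ?_
    refine (mk_union_le _ _).trans ?_
    have h1 : #(Sum.inl '' B : Set (X ⊕ C(X, ℝ))) ≤ lam := mk_image_le.trans (le_max_left _ _)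
    have h2 : #((fun β => (Sum.inr (T β).2.2 : X ⊕ C(X, ℝ))) '' Iic α) ≤ lam := by
      refine mk_image_le.trans ?_
      rw [← Iio_insert]
      refine (mk_insert_le).trans ?_
      refine add_le_of_le (le_max_right _ _) (hcardI α) ?_
      exact one_le_aleph0.trans (le_max_right _ _)
    exact add_le_of_le (le_max_right _ _) h1 h2
  obtain ⟨C, hC1, -, hC3⟩ := bad_misses_club h hpp hκ h0 M hM hMcard {α | ∃ β, β < α}
    (fun α n => Sum.inl (d α n)) (fun α => (T α).2.2) (fun α => (T α).1) (fun α => (T α).2.1)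
    (by
      rintro α ⟨β, hβ⟩ n
      exact ⟨β, hβ, Or.inl ⟨d α n, hdB α n, rfl⟩⟩)
    (by
      intro α _
      rw [hpts]
      exact hd1 α)
    (by
      intro α _
      rw [hpts]
      exact hd2 α)
    (by
      intro α _ β hβ f hf
      rcases hf with ⟨x, _, hx⟩ | ⟨γ, hγ, hx⟩
      · cases hx
      · exact (hTp α).2.2.1 f ⟨γ, lt_of_le_of_lt hγ hβ, hx.symm⟩)
    (by
      intro α _
      exact (hTp α).2.2.2)
    (by
      intro α _
      exact ⟨α, Or.inr ⟨α, self_mem_Iic, rfl⟩⟩)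
  have hne : Nonempty I := by
    rw [← mk_ne_zero_iff]
    simp only [I, mk_ord_toType]
    exact (lt_trans aleph0_pos h0).ne'
  obtain ⟨α₀⟩ := hne
  obtain ⟨β, hβC, hβ⟩ := hC1 α₀
  exact (disjoint_left.1 hC3) hβC ⟨α₀, hβ⟩

end Pool.Agent.Helper15.QD
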