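import Pool.Agent.Helper15.QD.Reg

/-!
# Reflection of sigma-discreteness and reflection of Fodor's lemma

`FR`: if `κ > 𝔠` is regular, `E ⊆ κ` stationary and `a α ⊆ α` countable for `α ∈ E`, then (by Fodor's lemma the
family `a α`, `α ∈ E`, has no one-to-one choice function and) for some `β < κ` the family `a α`, `α ∈ E ∩ β`, has
no one-to-one choice function. `DR` and `FR` are equivalent.
-/

set_option autoImplicit false

open Set Cardinal Order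

namespace Pool.Agent.Helper15.QD

open Pool.Agent.Helper19.QR
open Pool.Agent.Helper15.CQ (DR SigmaDiscrete ini ini_mem ini_inj ini_eq_ini ini_eq_iff pre_countable choice_of_sd
  sd_of_choice tc_pre)

/-- Fodor's lemma for one-to-one choice functions of countable sets reflects, above the continuum -/
def FR : Prop :=
  ∀ κ : Cardinal.{0}, κ.IsRegular → 𝔠 < κ → ∀ (E : Set κ.ord.ToType) (a : κ.ord.ToType → Set κ.ord.ToType),
    IsStationary E → (∀ α ∈ E, (a α).Countable ∧ a α ⊆ Iio α) →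
      ∃ β, ¬ ∃ f : κ.ord.ToType → κ.ord.ToType, (∀ α ∈ E ∩ Iio β, f α ∈ a α) ∧ InjOn f (E ∩ Iio β)

private theorem strict_upper {α : Type} [LinearOrder α] {t : Set α} (ht : #t < Order.cof α) :
    ∃ b, ∀ x ∈ t, x < b := by
  have h : ¬ IsCofinal t := fun h => (Order.cof_le h).not_gt ht
  rw [not_isCofinal_iff] at h
  obtain ⟨b, hb⟩ := h
  exact ⟨b, fun x hx => by simpa using hb x hx⟩

private theorem cof_eq {κ : Cardinal.{0}} (hκ : κ.IsRegular) : Order.cof κ.ord.ToType = κ := by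
  rw [Ordinal.cof_toType, hκ.cof_ord]

private theorem exists_gt {κ : Cardinal.{0}} (hκ : κ.IsRegular) (h0 : ℵ₀ < κ) (s : Set κ.ord.ToType)
    (hs : s.Finite) : ∃ b, ∀ x ∈ s, x < b := by
  refine strict_upper ?_
  rw [cof_eq hκ]
  exact (lt_aleph0_iff_set_finite.2 hs).trans h0

private theorem card_Iio {κ : Cardinal.{0}} (α : κ.ord.ToType) : #(Iio α) < κ := by
  have h := mk_Iio_lt α (by simp)
  rwa [mk_ord_toType] at h

/-- the closed stages form a club -/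
theorem isClub_clo {κ : Cardinal.{0}} (hκ : κ.IsRegular) (h0 : ℵ₀ < κ) {W : Type}
    (K : κ.ord.ToType → Set W) (hm : Monotone K) (hcard : ∀ α, #(K α) < κ)
    (hcov : ∀ x, ∃ α, x ∈ K α)
    (hcont : ∀ α, (∃ β, β < α) → (∀ β < α, ∃ γ < α, β < γ) → ∀ x ∈ K α, ∃ β < α, x ∈ K β)
    (Φ : Finset W → Set W) (hΦ : CV Φ) : IsClub {α | Clo Φ (K α)} := by
  obtain ⟨h1, h2⟩ := unbounded_clo hκ h0 K hm hcard hcov hcont Φ hΦ
  refine ⟨?_, fun α => ?_⟩
  · intro t ht hne _ α hα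
    by_cases hαt : α ∈ t
    · exact ht hαt
    · have hlt : ∀ γ ∈ t, γ < α := fun γ hγ => lt_of_le_of_ne (hα.1 hγ) fun h => hαt (h ▸ hγ)
      obtain ⟨γ₀, hγ₀⟩ := hne
      refine h2 α ⟨γ₀, hlt _ hγ₀⟩ fun β hβ => ?_
      by_contra hcon
      push Not at hcon
      have : α ≤ β := hα.2 fun γ hγ => not_lt.1 fun h => hcon γ (hlt γ hγ) h (ht hγ)
      exact absurd hβ this.not_gt
  · obtain ⟨β, hβ, hβ'⟩ := h1 α
    exact ⟨β, hβ', hβ.le⟩

theorem isClub_KK {κ : Cardinal.{0}} (hκ : κ.IsRegular) (h0 : ℵ₀ < κ) {D : Type}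
    (T : κ.ord.ToType → Set D) (hTm : Monotone T) (hTc : ∀ α, #(T α) < κ) (hTcov : ∀ x, ∃ α, x ∈ T α)
    (hTcont : ∀ α, (∀ β < α, ∃ γ < α, β < γ) → ∀ x ∈ T α, ∃ β < α, x ∈ T β)
    (Φ : Finset (κ.ord.ToType ⊕ List D) → Set (κ.ord.ToType ⊕ List D)) (hΦ : CV Φ) :
    IsClub {α | Clo Φ (KK T α)} := by
  choose b hb using hTcov
  refine isClub_clo hκ h0 (KK T) ?_ (card_KK h0 T hTc) ?_ ?_ Φ hΦ
  · rintro α α' hαα' (β | l) hx
    · rw [inl_mem_KK] at hx ⊢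
      exact hx.trans_le hαα'
    · rw [inr_mem_KK] at hx ⊢
      exact fun y hy => hTm hαα' (hx y hy)
  · rintro (β | l)
    · obtain ⟨α, hα⟩ := exists_gt hκ h0 {β} (finite_singleton β)
      exact ⟨α, (inl_mem_KK T α β).2 (hα β rfl)⟩
    · obtain ⟨α, hα⟩ := exists_gt hκ h0 (b '' {y | y ∈ l}) ((List.finite_toSet l).image b)
      exact ⟨α, (inr_mem_KK T α l).2 fun y hy => hTm (hα _ ⟨y, hy, rfl⟩).le (hb y)⟩
  · rintro α ⟨β₀, hβ₀⟩ hlim (β | l) hx
    · rw [inl_mem_KK] at hx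
      obtain ⟨γ, hγ, hβγ⟩ := hlim β hx
      exact ⟨γ, hγ, (inl_mem_KK T γ β).2 hβγ⟩
    · rw [inr_mem_KK] at hx
      induction l with
      | nil => exact ⟨β₀, hβ₀, (inr_mem_KK T β₀ _).2 (by simp)⟩
      | cons y l ih =>
        obtain ⟨γ, hγ, hγl⟩ := ih fun z hz => hx z (List.mem_cons_of_mem _ hz)
        obtain ⟨β, hβ, hy⟩ := hTcont α hlim y (hx y List.mem_cons_self)
        refine ⟨max γ β, max_lt hγ hβ, (inr_mem_KK T _ _).2 fun z hz => ?_⟩
        rcases List.mem_cons.1 hz with rfl | hz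
        · exact hTm (le_max_right _ _) hy
        · exact hTm (le_max_left _ _) ((inr_mem_KK T γ l).1 hγl z hz)

theorem isClub_Iio {κ : Cardinal.{0}} (hκ : κ.IsRegular) (h0 : ℵ₀ < κ)
    (Φ : Finset κ.ord.ToType → Set κ.ord.ToType) (hΦ : CV Φ) : IsClub {α | Clo Φ (Iio α)} := by
  refine isClub_clo hκ h0 (fun α => Iio α) (fun _ _ h => Iio_subset_Iio h) card_Iio (fun x => ?_)
    (fun α _ h x hx => ?_) Φ hΦ
  · obtain ⟨α, hα⟩ := exists_gt hκ h0 {x} (finite_singleton x)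
    exact ⟨α, hα x rfl⟩
  · obtain ⟨γ, hγ, hxγ⟩ := h x hx
    exact ⟨γ, hγ, hxγ⟩

theorem fr_of_dr (h : DR) : FR := by
  intro κ hκ hc E a hE ha
  by_contra hcon
  push Not at hcon
  have h0 : ℵ₀ < κ := aleph0_lt_continuum.trans hc
  have hne : ∀ α ∈ E, (a α).Nonempty := by
    intro α hα
    obtain ⟨β, hβ⟩ := exists_gt hκ h0 {α} (finite_singleton α)
    obtain ⟨f, hf, -⟩ := hcon β
    exact ⟨f α, hf α ⟨hα, hβ α rfl⟩⟩
  have hcex : ∀ α, ∃ c : ℕ → κ.ord.ToType, α ∈ E → a α = range c := by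
    intro α
    by_cases hα : α ∈ E
    · obtain ⟨c, hc⟩ := (ha α hα).1.exists_eq_range (hne α hα)
      exact ⟨c, fun _ => hc⟩
    · exact ⟨fun _ => α, fun h => absurd h hα⟩
  choose c hc' using hcex
  obtain ⟨Φ, hΦ, hΦ'⟩ := tc_pre h E c (by
    intro J hJ hJc
    obtain ⟨β, hβ⟩ : ∃ β, ∀ x ∈ J, x < β := strict_upper (by rw [cof_eq hκ]; exact hJc.trans_lt hc)
    obtain ⟨f, hf, hf'⟩ := hcon β
    have hn : ∀ α, ∃ n, α ∈ J → c α n = f α := by
      intro α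
      by_cases hα : α ∈ J
      · have h1 := hf α ⟨hJ hα, hβ α hα⟩
        rw [hc' α (hJ hα)] at h1
        obtain ⟨n, hn⟩ := h1
        exact ⟨n, fun _ => hn⟩
      · exact ⟨0, fun h => absurd h hα⟩
    choose n hn using hn
    refine ⟨fun α => ini (c α) (n α), fun α _ => ini_mem _ _, fun α hα γ hγ hαγ => ?_⟩
    obtain ⟨h1, h2⟩ := ini_eq_ini hαγ
    refine hf' ⟨hJ hα, hβ α hα⟩ ⟨hJ hγ, hβ γ hγ⟩ ?_
    rw [← hn α hα, ← hn γ hγ, h2 (n α) (by omega), h1])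
  obtain ⟨α, hαE, hαC⟩ := hE (isClub_KK hκ h0 (fun α => Iio α) (fun _ _ h => Iio_subset_Iio h) card_Iio
    (fun x => by
      obtain ⟨α, hα⟩ := exists_gt hκ h0 {x} (finite_singleton x)
      exact ⟨α, hα x rfl⟩)
    (fun α h x hx => by
      obtain ⟨γ, hγ, hxγ⟩ := h x hx
      exact ⟨γ, hγ, hxγ⟩) Φ hΦ)
  obtain ⟨l, ⟨n, hn⟩, hl⟩ := hΦ' _ hαC α hαE fun h => lt_irrefl α ((inl_mem_KK _ α α).1 h)
  apply hl
  rw [inr_mem_KK, ← hn]
  intro y hy
  simp only [List.mem_map] at hy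
  obtain ⟨k, -, rfl⟩ := hy
  refine (ha α hαE).2 ?_
  rw [hc' α hαE]
  exact mem_range_self k

/-- gluing sigma-discrete pieces -/
theorem sd_glue {D ι : Type} [LinearOrder ι] [WellFoundedLT ι] (A : Set (ℕ → D)) (M : ι → Set (List D))
    (hcov : ∀ a ∈ A, ∃ j, pre a ⊆ M j)
    (hcont : ∀ a ∈ A, ∀ j, pre a ⊆ ⋃ i ∈ Iio j, M i → ∃ i < j, pre a ⊆ M i)
    (hsd : ∀ j, SigmaDiscrete {a ∈ A | pre a ⊆ M j}) : SigmaDiscrete A := by
  classical
  rcases A.eq_empty_or_nonempty with hA | ⟨a₀, ha₀⟩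
  · exact ⟨fun _ => 0, fun a ha => by rw [hA] at ha; exact absurd ha (notMem_empty a)⟩
  obtain ⟨j₀, -⟩ := hcov a₀ ha₀
  choose m hm using hsd
  have h1 : ∀ a, ∃ (j : ι) (n : ℕ), a ∈ A → pre a ⊆ M j ∧ ini a n ∉ ⋃ i ∈ Iio j, M i := by
    intro a
    by_cases ha : a ∈ A
    · obtain ⟨j, hj, hmin⟩ := WellFounded.has_min (wellFounded_lt (α := ι)) {j | pre a ⊆ M j} (hcov a ha)
      by_contra hcon
      push Not at hcon
      obtain ⟨i, hij, hi⟩ := hcont a ha j (by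
        rintro _ ⟨n, rfl⟩
        exact (hcon j n).2 hj)
      exact hmin i hi hij
    · exact ⟨j₀, 0, fun h => absurd h ha⟩
  choose j n hjn using h1
  refine ⟨fun a => Nat.pair (n a + 1) (m (j a) a), fun a ha b hb hab hk => ?_⟩
  beta_reduce at hab hk
  obtain ⟨h2, h3⟩ := Nat.pair_eq_pair.1 hab
  have hl := Nat.left_le_pair (n a + 1) (m (j a) a)
  have hr := Nat.right_le_pair (n a + 1) (m (j a) a)
  have h4 : ini a (n a) = ini b (n a) := (ini_eq_iff a b (n a)).2 fun k hk' => hk k (by omega)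
  have h5 : n b = n a := by omega
  have hja : ∀ {a b : ℕ → D}, a ∈ A → b ∈ A → ini a (n a) = ini b (n a) → n b = n a → ¬ j a < j b := by
    intro a b ha hb h4 h5 hlt
    apply (hjn b hb).2
    rw [h5, ← h4]
    exact mem_biUnion (x := j a) hlt ((hjn a ha).1 (ini_mem a _))
  have h6 : j a = j b := by
    rcases lt_trichotomy (j a) (j b) with h | h | h
    · exact absurd h (hja ha hb h4 h5)
    · exact h
    · refine absurd h (hja hb ha ?_ h5.symm)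
      rw [h5]
      exact h4.symm
  refine hm (j a) a ⟨ha, (hjn a ha).1⟩ b ⟨hb, h6 ▸ (hjn b hb).1⟩ ?_ fun k hk' => hk k (by omega)
  rw [h3, h6]

/-- the regular case -/
theorem sd_regular (h : FR) {D : Type} (A : Set (ℕ → D)) (hκ : (#A).IsRegular) (hc : 𝔠 < #A)
    (ih : ∀ B ⊆ A, #B < #A → SigmaDiscrete B) : SigmaDiscrete A := by
  classical
  have h0 : ℵ₀ < #A := aleph0_lt_continuum.trans hc
  obtain ⟨κ, hκA⟩ : ∃ κ : Cardinal.{0}, κ = #A := ⟨_, rfl⟩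
  rw [← hκA] at hκ hc ih h0
  obtain ⟨e⟩ : Nonempty (κ.ord.ToType ≃ A) := Cardinal.eq.1 (by rw [mk_ord_toType, hκA])
  obtain ⟨P, hP⟩ : ∃ P : κ.ord.ToType → Set (List D), ∀ α, P α = ⋃ β ∈ Iio α, pre (e β : ℕ → D) :=
    ⟨_, fun _ => rfl⟩
  have hPmem : ∀ α l, l ∈ P α ↔ ∃ β < α, l ∈ pre (e β : ℕ → D) := by
    intro α l
    rw [hP]
    simp only [mem_iUnion, mem_Iio, exists_prop]
  have hPm : Monotone P := by
    intro α α' hαα' l hl
    rw [hPmem] at hl ⊢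
    obtain ⟨β, hβ, hl⟩ := hl
    exact ⟨β, hβ.trans_le hαα', hl⟩
  -- codes of lists
  obtain ⟨code, hcode⟩ : ∃ code : List D → κ.ord.ToType, InjOn code (⋃ β, pre (e β : ℕ → D)) := by
    have h1 : #(⋃ β, pre (e β : ℕ → D)) ≤ #(κ.ord.ToType) := by
      refine (mk_iUnion_le _).trans ?_
      rw [mk_ord_toType]
      refine mul_le_of_le h0.le le_rfl ?_
      exact ciSup_le' fun β => (le_aleph0_iff_set_countable.2 (pre_countable _)).trans h0.le
    obtain ⟨f⟩ : Nonempty ((⋃ β, pre (e β : ℕ → D)) ↪ κ.ord.ToType) := h1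
    obtain ⟨x₀, -⟩ := exists_gt hκ h0 ∅ finite_empty
    refine ⟨fun l => if hl : l ∈ ⋃ β, pre (e β : ℕ → D) then f ⟨l, hl⟩ else x₀, fun l hl l' hl' hll' => ?_⟩
    beta_reduce at hll'
    rw [dif_pos hl, dif_pos hl'] at hll'
    exact congrArg Subtype.val (f.injective hll')
  -- bad stages
  obtain ⟨E, hE⟩ : ∃ E : Set κ.ord.ToType, ∀ α, α ∈ E ↔ ∃ β, α ≤ β ∧ pre (e β : ℕ → D) ⊆ P α :=
    ⟨{α | ∃ β, α ≤ β ∧ pre (e β : ℕ → D) ⊆ P α}, fun _ => Iff.rfl⟩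
  have hbex : ∀ α, ∃ β, α ∈ E → α ≤ β ∧ pre (e β : ℕ → D) ⊆ P α := by
    intro α
    by_cases hα : α ∈ E
    · obtain ⟨β, hβ⟩ := (hE α).1 hα
      exact ⟨β, fun _ => hβ⟩
    · exact ⟨α, fun h => absurd h hα⟩
  choose b hb using hbex
  obtain ⟨Φ, hΦ⟩ : ∃ Φ : Finset κ.ord.ToType → Set κ.ord.ToType, ∀ s,
      Φ s = ⋃ γ ∈ (↑s : Set κ.ord.ToType), insert (b γ) (code '' pre (e γ : ℕ → D)) := ⟨_, fun _ => rfl⟩
  have hΦc : CV Φ := by
    intro s
    rw [hΦ]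
    exact s.countable_toSet.biUnion fun γ _ => ((pre_countable _).image _).insert _
  have hC1 := isClub_Iio hκ h0 Φ hΦc
  have hC1b : ∀ α, Clo Φ (Iio α) → ∀ γ < α, b γ < α ∧ code '' pre (e γ : ℕ → D) ⊆ Iio α := by
    intro α hα γ hγ
    have h1 : insert (b γ) (code '' pre (e γ : ℕ → D)) ⊆ Iio α := by
      refine subset_trans ?_ (hα {γ} (Finset.singleton_nonempty _) (by simpa using hγ))
      rw [hΦ]
      exact subset_biUnion_of_mem (u := fun γ => insert (b γ) (code '' pre (e γ : ℕ → D))) (by simp)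
    exact ⟨h1 (mem_insert _ _), (subset_insert _ _).trans h1⟩
  have hst : ¬ IsStationary {α | α ∈ E ∧ Clo Φ (Iio α)} := by
    intro hst
    obtain ⟨β, hβ⟩ := h κ hκ hc {α | α ∈ E ∧ Clo Φ (Iio α)} (fun α => code '' pre (e (b α) : ℕ → D)) hst
      (by
        rintro α ⟨hαE, hαC⟩
        refine ⟨(pre_countable _).image _, ?_⟩
        rintro _ ⟨l, hl, rfl⟩
        obtain ⟨γ, hγ, hl'⟩ := (hPmem α l).1 ((hb α hαE).2 hl)
        exact (hC1b α hαC γ hγ).2 ⟨l, hl', rfl⟩)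
    apply hβ
    have hinj : ∀ α ∈ {α | α ∈ E ∧ Clo Φ (Iio α)}, ∀ α' ∈ {α | α ∈ E ∧ Clo Φ (Iio α)}, b α = b α' → ¬ α < α' := by
      rintro α ⟨hαE, -⟩ α' ⟨hα'E, hα'C⟩ hbb hlt
      have h1 := (hC1b α' hα'C α hlt).1
      have h2 := (hb α' hα'E).1
      rw [hbb] at h1
      exact absurd h1 (not_lt.2 h2)
    obtain ⟨m, hm⟩ := choice_of_sd (ih ((fun α => (e (b α) : ℕ → D)) '' Iio β) (by
      rintro _ ⟨α, -, rfl⟩
      exact (e (b α)).2) (mk_image_le.trans_lt (card_Iio β)))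
    refine ⟨fun α => code (ini (e (b α) : ℕ → D) (m (e (b α)))), fun α _ => ⟨_, ini_mem _ _, rfl⟩, ?_⟩
    rintro α ⟨hα, hαβ⟩ α' ⟨hα', hα'β⟩ hαα'
    have h1 := hcode (mem_iUnion.2 ⟨b α, ini_mem _ _⟩) (mem_iUnion.2 ⟨b α', ini_mem _ _⟩) hαα'
    have h2 := hm ⟨α, hαβ, rfl⟩ ⟨α', hα'β, rfl⟩ h1
    have h3 : b α = b α' := e.injective (Subtype.ext h2)
    rcases lt_trichotomy α α' with h | h | h
    · exact absurd h (hinj α hα α' hα' h3)
    · exact h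
    · exact absurd h (hinj α' hα' α hα h3.symm)
  obtain ⟨C2, hC2, hdis⟩ := not_isStationary_iff.1 hst
  have hC : IsClub ({α | Clo Φ (Iio α)} ∩ C2) := by
    refine IsClub.inter ?_ hC1 hC2
    rw [cof_eq hκ]
    exact h0.ne'
  obtain ⟨C, hCdef⟩ : ∃ C, C = {α | Clo Φ (Iio α)} ∩ C2 := ⟨_, rfl⟩
  rw [← hCdef] at hC
  have hgood : ∀ α ∈ C, ∀ β, pre (e β : ℕ → D) ⊆ P α → β < α := by
    intro α hα β hβ
    rw [hCdef] at hα
    by_contra hcon
    have hαE : α ∈ E := (hE α).2 ⟨β, not_lt.1 hcon, hβ⟩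
    exact disjoint_left.1 hdis ⟨hαE, hα.1⟩ hα.2
  refine sd_glue (ι := C) A (fun j => P j) ?_ ?_ ?_
  · intro a ha
    obtain ⟨β, hβ⟩ := e.surjective ⟨a, ha⟩
    obtain ⟨γ, hγ⟩ := exists_gt hκ h0 {β} (finite_singleton β)
    obtain ⟨j, hj, hγj⟩ := hC.isCofinal γ
    refine ⟨⟨j, hj⟩, fun l hl => (hPmem _ _).2 ⟨β, (hγ β rfl).trans_le hγj, ?_⟩⟩
    rw [hβ]
    exact hl
  · rintro a ha ⟨j, hj⟩ hsub
    obtain ⟨β, hβ⟩ := e.surjective ⟨a, ha⟩
    have hβ' : (e β : ℕ → D) = a := by rw [hβ]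
    have hne : (C ∩ Iio j).Nonempty := by
      have h1 := hsub (ini_mem a 0)
      simp only [mem_iUnion, mem_Iio] at h1
      obtain ⟨⟨i, hi⟩, hij, -⟩ := h1
      exact ⟨i, hi, hij⟩
    obtain ⟨δ, hδ⟩ := Pool.Agent.Helper93.EC.exists_lub (t := C ∩ Iio j) ⟨j, fun x hx => le_of_lt hx.2⟩
    have hδC : δ ∈ C := hC.isLUB_mem inter_subset_left hne hδ
    have h2 : pre (e β : ℕ → D) ⊆ P δ := by
      rw [hβ']
      intro l hl
      have h1 := hsub hl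
      simp only [mem_iUnion, mem_Iio] at h1
      obtain ⟨⟨i, hi⟩, hij, hl'⟩ := h1
      exact hPm (hδ.1 ⟨hi, hij⟩) hl'
    obtain ⟨i, ⟨hi, hij⟩, hβi⟩ := (lt_isLUB_iff hδ).1 (hgood δ hδC β h2)
    refine ⟨⟨i, hi⟩, hij, fun l hl => (hPmem _ _).2 ⟨β, hβi, ?_⟩⟩
    rw [hβ']
    exact hl
  · rintro ⟨j, hj⟩
    refine ih _ (fun a ha => ha.1) ?_
    have h1 : {a | a ∈ A ∧ pre a ⊆ P j} ⊆ (fun β => (e β : ℕ → D)) '' Iio j := by
      rintro a ⟨ha, hsub⟩
      obtain ⟨β, hβ⟩ := e.surjective ⟨a, ha⟩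
      have hβ' : (e β : ℕ → D) = a := by rw [hβ]
      exact ⟨β, hgood j hj β (by rw [hβ']; exact hsub), hβ'⟩
    exact (mk_le_mk_of_subset h1).trans_lt (mk_image_le.trans_lt (card_Iio j))

/-- the singular case (singular compactness) -/
theorem sd_singular {D : Type} (A : Set (ℕ → D)) (hκ : ¬ (#A).IsRegular) (h0 : ℵ₀ < #A)
    (ih : ∀ B ⊆ A, #B < #A → SigmaDiscrete B) : SigmaDiscrete A := by
  classical
  obtain ⟨κ, hκA⟩ : ∃ κ : Cardinal.{0}, κ = #A := ⟨_, rfl⟩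
  rw [← hκA] at hκ ih h0
  have hcofT : Order.cof κ.ord.ToType < κ := by
    rw [Ordinal.cof_toType]
    by_contra hge
    push Not at hge
    exact hκ ⟨h0.le, hge⟩
  obtain ⟨S, hS, hScard⟩ := Order.exists_cof_eq (α := κ.ord.ToType)
  obtain ⟨e⟩ : Nonempty (κ.ord.ToType ≃ A) := Cardinal.eq.1 (by rw [mk_ord_toType, hκA])
  have hSlt : #S < κ := by
    rw [hScard]
    exact hcofT
  obtain ⟨V, hV⟩ : ∃ V : S → Set (ℕ → D), ∀ j, V j = (fun β => (e β : ℕ → D)) '' Iic j.1 := ⟨_, fun _ => rfl⟩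
  have hVA : ∀ j, V j ⊆ A := by
    intro j
    rw [hV]
    rintro _ ⟨β, -, rfl⟩
    exact (e β).2
  have hVc : ∀ j, #(V j) < κ := by
    intro j
    rw [hV]
    refine mk_image_le.trans_lt ?_
    have h3 : (Iic j.1 : Set κ.ord.ToType) = insert j.1 (Iio j.1) := by
      ext x; simp [le_iff_lt_or_eq, or_comm]
    rw [h3]
    exact mk_insert_le.trans_lt (add_lt_of_lt h0.le (card_Iio _) (one_lt_aleph0.trans h0))
  have hVcov : ∀ a, ∃ j, a ∈ A → a ∈ V j := by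
    intro a
    by_cases ha : a ∈ A
    · obtain ⟨β, hβ⟩ := e.surjective ⟨a, ha⟩
      obtain ⟨j, hj, hβj⟩ := hS β
      refine ⟨⟨j, hj⟩, fun _ => ?_⟩
      rw [hV]
      exact ⟨β, hβj, by beta_reduce; rw [hβ]⟩
    · have hne : Nonempty κ.ord.ToType := by
        rw [← mk_ne_zero_iff, mk_ord_toType]
        exact (aleph0_pos.trans h0).ne'
      obtain ⟨x⟩ := hne
      obtain ⟨j, hj, -⟩ := hS x
      exact ⟨⟨j, hj⟩, fun h => absurd h ha⟩
  choose k hk using hVcov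
  have hm : ∀ j, ∃ m : (ℕ → D) → ℕ, InjOn (fun a => ini a (m a)) (V j) := fun j =>
    choice_of_sd (ih (V j) (hVA j) (hVc j))
  choose m hm using hm
  -- the operation
  obtain ⟨Φ, hΦ⟩ : ∃ Φ : Finset (S ⊕ List D) → Set (S ⊕ List D), ∀ s,
      Φ s = ⋃ j ∈ {j : S | Sum.inl j ∈ s}, ⋃ l ∈ {l : List D | Sum.inr l ∈ s},
        Sum.inr '' ⋃ a ∈ {a | a ∈ V j ∧ ini a (m j a) = l}, pre a := ⟨_, fun _ => rfl⟩
  have hΦc : CV Φ := by
    intro s
    rw [hΦ]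
    refine Countable.biUnion ((s.countable_toSet).preimage Sum.inl_injective) fun j _ => ?_
    refine Countable.biUnion ((s.countable_toSet).preimage Sum.inr_injective) fun l _ => ?_
    refine Countable.image (Countable.biUnion ?_ fun a _ => pre_countable a) _
    refine Set.Subsingleton.countable ?_
    rintro a ⟨ha, hal⟩ b ⟨hb, hbl⟩
    exact hm j ha hb (hal.trans hbl.symm)
  obtain ⟨N, hN⟩ : ∃ N : S → Set (S ⊕ List D), ∀ j,
      N j = cl Φ (range Sum.inl ∪ Sum.inr '' ⋃ a ∈ V j, pre a) := ⟨_, fun _ => rfl⟩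
  have hNcl : ∀ j, Clo Φ (N j) := fun j => by rw [hN]; exact clo_cl _
  have hNinl : ∀ j i, Sum.inl i ∈ N j := fun j i => by
    rw [hN]
    exact subset_cl _ (Or.inl ⟨i, rfl⟩)
  have hNV : ∀ j, ∀ a ∈ V j, ∀ l ∈ pre a, Sum.inr l ∈ N j := fun j a ha l hl => by
    rw [hN]
    exact subset_cl _ (Or.inr ⟨l, mem_biUnion ha hl, rfl⟩)
  have hNc : ∀ j, #(N j) < κ := by
    intro j
    rw [hN]
    refine (mk_cl_le hΦc _).trans_lt (max_lt ?_ h0)
    refine (mk_union_le _ _).trans_lt (add_lt_of_lt h0.le (mk_range_le.trans_lt hSlt) ?_)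
    refine mk_image_le.trans_lt ?_
    have e1 : (⋃ a ∈ V j, pre a) = ⋃ a : V j, pre (a : ℕ → D) := by
      ext x; simp
    rw [e1]
    refine (mk_iUnion_le _).trans_lt ?_
    refine mul_lt_of_lt h0.le (hVc j) ?_
    refine lt_of_le_of_lt (ciSup_le' fun a => ?_) h0
    exact le_aleph0_iff_set_countable.2 (pre_countable _)
  have hstep : ∀ a ∈ A, ∀ j, Sum.inr (ini a (m (k a) a)) ∈ N j → ∀ l ∈ pre a, Sum.inr l ∈ N j := by
    intro a ha j haj l hl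
    refine hNcl j {Sum.inl (k a), Sum.inr (ini a (m (k a) a))} (Finset.insert_nonempty _ _) ?_ ?_
    · intro x hx
      rw [Finset.mem_coe, Finset.mem_insert, Finset.mem_singleton] at hx
      rcases hx with rfl | rfl
      · exact hNinl j _
      · exact haj
    · rw [hΦ]
      refine mem_biUnion (x := k a) (by simp) (mem_biUnion (x := ini a (m (k a) a)) (by simp) ⟨l, ?_, rfl⟩)
      exact mem_biUnion (x := a) ⟨hk a ha, rfl⟩ hl
  refine sd_glue (ι := S) A (fun j => {l | Sum.inr l ∈ N j}) ?_ ?_ ?_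
  · intro a ha
    exact ⟨k a, fun l hl => hNV _ a (hk a ha) l hl⟩
  · intro a ha j hsub
    have h1 := hsub (ini_mem a (m (k a) a))
    simp only [mem_iUnion, mem_Iio] at h1
    obtain ⟨i, hij, hi⟩ := h1
    exact ⟨i, hij, fun l hl => hstep a ha i hi l hl⟩
  · intro j
    refine ih _ (fun a ha => ha.1) ?_
    have h1 : #{a | a ∈ A ∧ pre a ⊆ {l | Sum.inr l ∈ N j}} ≤ #(S × N j) := by
      refine mk_le_of_injective (f := fun a => (k a.1, ⟨Sum.inr (ini a.1 (m (k a.1) a.1)), ?_⟩)) ?_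
      · exact a.2.2 (ini_mem _ _)
      · rintro ⟨a, ha⟩ ⟨b, hb⟩ hab
        have h2 := congrArg Prod.fst hab
        have h3 := Sum.inr_injective (congrArg Subtype.val (congrArg Prod.snd hab))
        beta_reduce at h2 h3
        dsimp only at h2 h3
        refine Subtype.ext (hm (k a) (hk a ha.1) ?_ ?_)
        · rw [h2]
          exact hk b hb.1
        · beta_reduce
          rw [h3, h2]
    refine h1.trans_lt ?_
    rw [mk_prod, lift_id, lift_id]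
    exact mul_lt_of_lt h0.le hSlt (hNc j)

theorem dr_of_fr (h : FR) : DR := by
  intro D A hA
  have key : ∀ κ : Cardinal.{0}, ∀ B ⊆ A, #B = κ → SigmaDiscrete B := by
    intro κ
    induction κ using WellFoundedLT.induction with
    | ind κ ihκ =>
      intro B hB hκ
      have ih : ∀ B' ⊆ B, #B' < #B → SigmaDiscrete B' := fun B' hB' hlt =>
        ihκ (#B') (hκ ▸ hlt) B' (hB'.trans hB) rfl
      by_cases hc : #B ≤ 𝔠
      · exact hA B hB hc
      push Not at hc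
      by_cases hreg : (#B).IsRegular
      · exact sd_regular h B hreg hc ih
      · exact sd_singular B hreg (aleph0_lt_continuum.trans hc) ih
  exact key (#A) A subset_rfl rfl

/-- REFLECTION OF SIGMA-DISCRETENESS IS REFLECTION OF FODOR'S LEMMA -/
theorem dr_iff_fr : DR ↔ FR := ⟨fr_of_dr, dr_of_fr⟩

end Pool.Agent.Helper15.QD
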