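import Pool.Agent.Helper19.QR.Proj
import Pool.Agent.Helper15.CQ.Space

/-!
# Sets of size at most the continuum, Corson case

If `K = closure (pts U)` is Corson, then `PP U`. (The proof is that of `Helper19/QR/Small.lean`, helper68; it
uses only that the supports are countable.)
-/

set_option autoImplicit false

open Set Cardinal

namespace Pool.Agent.Helper15.QD

open Pool.Agent.Helper19.QR
open Pool.Agent.Helper15.CQ (IsCorson)

/-- The countable set attached to a box. -/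
private theorem exists_box68 {K X Γ : Type} [TopologicalSpace K] [CompactSpace K]
    [TopologicalSpace X] (j : K → X) (hj : Continuous j) (φ : K → Γ → ℝ)
    (hφ0 : ∀ y, {γ | φ y γ ≠ 0}.Countable) (U : Set (X ⊕ C(X, ℝ))) (Q : Set (K × K))
    (hQ : IsClosed Q) :
    ∃ W : Set ((X ⊕ C(X, ℝ)) ⊕ Γ), W.Countable ∧ (∀ t, Sum.inl t ∈ W → t ∈ U) ∧
      ((∃ w ∈ Q, Eqv U (j w.1) (j w.2) ∧
        ∀ γ, (φ w.1 γ ≠ 0 ∨ φ w.2 γ ≠ 0) → Sum.inr γ ∈ W) ∨
      ∃ G : Finset C(X, ℝ), (∀ w ∈ Q, ∃ f ∈ G, f (j w.1) ≠ f (j w.2)) ∧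
        ∀ f ∈ G, Sum.inl (Sum.inr f) ∈ W) := by
  classical
  by_cases h : ∃ w ∈ Q, Eqv U (j w.1) (j w.2)
  · obtain ⟨w, hw, hE⟩ := h
    refine ⟨Sum.inr '' ({γ | φ w.1 γ ≠ 0} ∪ {γ | φ w.2 γ ≠ 0}),
      ((hφ0 _).union (hφ0 _)).image _, ?_, Or.inl ⟨w, hw, hE, ?_⟩⟩
    · rintro t ⟨γ, -, hγ⟩
      exact absurd hγ (by simp)
    · intro γ hγ
      exact ⟨γ, hγ, rfl⟩
  · push Not at h
    have h1 : ∀ w ∈ Q, ∃ f : C(X, ℝ), Sum.inr f ∈ U ∧ f (j w.1) ≠ f (j w.2) := by
      intro w hw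
      have h2 := h w hw
      unfold Eqv at h2
      push Not at h2
      exact h2
    obtain ⟨t, ht⟩ := hQ.isCompact.elim_finite_subcover
      (fun f : {f : C(X, ℝ) // Sum.inr f ∈ U} => {w : K × K | f.1 (j w.1) ≠ f.1 (j w.2)})
      (fun f => isOpen_ne_fun (f.1.continuous.comp (hj.comp continuous_fst))
        (f.1.continuous.comp (hj.comp continuous_snd)))
      (by
        intro w hw
        obtain ⟨f, hf, hne⟩ := h1 w hw
        exact mem_iUnion.2 ⟨⟨f, hf⟩, hne⟩)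
    refine ⟨(fun f : C(X, ℝ) => Sum.inl (Sum.inr f)) '' (↑(t.image Subtype.val) : Set C(X, ℝ)),
      ((t.image Subtype.val).finite_toSet.image _).countable, ?_,
      Or.inr ⟨t.image Subtype.val, ?_, ?_⟩⟩
    · rintro x ⟨f, hf, hx⟩
      obtain ⟨g, -, rfl⟩ := Finset.mem_image.1 (Finset.mem_coe.1 hf)
      have := Sum.inl_injective hx
      rw [← this]
      exact g.2
    · intro w hw
      have h2 := ht hw
      simp only [mem_iUnion] at h2
      obtain ⟨f, hf, hne⟩ := h2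
      exact ⟨f.1, Finset.mem_image.2 ⟨f, hf, rfl⟩, hne⟩
    · intro f hf
      exact ⟨f, Finset.mem_coe.2 hf, rfl⟩

/-- The points of a countably generated closed set: trace of a closed set on the first summand. -/
private theorem trace68 {Ω Γ : Type} {Φ : Finset (Ω ⊕ Γ) → Set (Ω ⊕ Γ)} {U N : Set Ω}
    (hΦU : ∀ e t, Sum.inl t ∈ Φ e → t ∈ U) (hN : N ⊆ U)
    (hc : Clo (fun e : Finset Ω => (Sum.inl ⁻¹' cl Φ (Sum.inl '' (↑e : Set Ω)) : Set Ω) ∩ U) N)
    {t : Ω} (ht : Sum.inl t ∈ cl Φ (Sum.inl '' N)) : t ∈ N := by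
  classical
  let M : {e : Finset Ω // (↑e : Set Ω) ⊆ N} → Set (Ω ⊕ Γ) :=
    fun e => cl Φ (Sum.inl '' (↑e.1 : Set Ω))
  have hd : Directed (· ⊆ ·) M := by
    intro e e'
    refine ⟨⟨e.1 ∪ e'.1, ?_⟩, ?_, ?_⟩
    · rw [Finset.coe_union]
      exact union_subset e.2 e'.2
    · refine cl_mono (image_mono ?_)
      exact Finset.coe_subset.2 Finset.subset_union_left
    · refine cl_mono (image_mono ?_)
      exact Finset.coe_subset.2 Finset.subset_union_right
  have hcl : Clo Φ (⋃ e, M e) := clo_iUnion hd fun e => clo_cl _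
  have hsub : Sum.inl '' N ⊆ ⋃ e, M e := by
    rintro _ ⟨y, hy, rfl⟩
    refine mem_iUnion.2 ⟨⟨{y}, ?_⟩, ?_⟩
    · rw [Finset.coe_singleton]
      exact singleton_subset_iff.2 hy
    · exact subset_cl _ ⟨y, Finset.mem_coe.2 (Finset.mem_singleton_self y), rfl⟩
  obtain ⟨e, he⟩ := mem_iUnion.1 (cl_min hsub hcl ht)
  rcases e.1.eq_empty_or_nonempty with h0 | h0
  · have h1 : Sum.inl t ∈ cl Φ (Sum.inl '' (↑e.1 : Set Ω)) := he
    rw [h0, Finset.coe_empty, image_empty, cl_empty] at h1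
    exact absurd h1 (notMem_empty _)
  · refine hc e.1 h0 e.2 ⟨he, ?_⟩
    have h2 : cl Φ (Sum.inl '' (↑e.1 : Set Ω)) ⊆ {x | ∀ u, x = Sum.inl u → u ∈ U} := by
      refine cl_min ?_ ?_
      · rintro _ ⟨y, hy, rfl⟩ u hu
        rw [← Sum.inl_injective hu]
        exact hN (e.2 hy)
      · intro e' _ _ x hx u hu
        rw [hu] at hx
        exact hΦU e' u hx
    exact h2 he t rfl

theorem pp_of_corson {X : Type} [TopologicalSpace X] [CompactSpace X] [T2Space X]
    (U : Set (X ⊕ C(X, ℝ))) (hU : IsCorson (closure (pts U))) : PP U := by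
  classical
  obtain ⟨Γ, φ, hφc, hφi, hφ0⟩ := hU
  have hK : CompactSpace (closure (pts U)) :=
    isCompact_iff_compactSpace.1 isClosed_closure.isCompact
  have hco : ∀ γ, Continuous fun y : closure (pts U) => φ y γ := fun γ =>
    (continuous_apply γ).comp hφc
  have hφs : ∀ y : closure (pts U), {γ | φ y γ ≠ 0}.Countable := hφ0
  -- boxes
  obtain ⟨Box, hBox⟩ : ∃ Box : (e' : Finset Γ) → ((e' → ℚ) × (e' → ℚ) × ℚ) →
      Set (closure (pts U) × closure (pts U)), ∀ e' b w, w ∈ Box e' b ↔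
        ∀ γ : e', |φ w.1 γ - b.1 γ| ≤ b.2.2 ∧ |φ w.2 γ - b.2.1 γ| ≤ b.2.2 :=
    ⟨fun e' b => {w | ∀ γ : e', |φ w.1 γ - b.1 γ| ≤ b.2.2 ∧ |φ w.2 γ - b.2.1 γ| ≤ b.2.2},
      fun _ _ _ => Iff.rfl⟩
  have hBc : ∀ e' b, IsClosed (Box e' b) := by
    intro e' b
    have h1 : Box e' b = ⋂ γ : e', ({w | |φ w.1 γ - b.1 γ| ≤ b.2.2} ∩
        {w | |φ w.2 γ - b.2.1 γ| ≤ b.2.2}) := by
      ext w
      rw [hBox]
      simp only [mem_iInter, mem_inter_iff, mem_ofPred_eq]
    rw [h1]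
    refine isClosed_iInter fun γ => IsClosed.inter ?_ ?_
    · exact isClosed_le (((hco γ).comp continuous_fst).sub continuous_const).abs continuous_const
    · exact isClosed_le (((hco γ).comp continuous_snd).sub continuous_const).abs continuous_const
  have hW : ∀ (e' : Finset Γ) (b : (e' → ℚ) × (e' → ℚ) × ℚ), ∃ W : Set ((X ⊕ C(X, ℝ)) ⊕ Γ),
      W.Countable ∧ (∀ t, Sum.inl t ∈ W → t ∈ U) ∧
      ((∃ w ∈ Box e' b, Eqv U (w.1 : X) (w.2 : X) ∧
        ∀ γ, (φ w.1 γ ≠ 0 ∨ φ w.2 γ ≠ 0) → Sum.inr γ ∈ W) ∨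
      ∃ G : Finset C(X, ℝ), (∀ w ∈ Box e' b, ∃ f ∈ G, f (w.1 : X) ≠ f (w.2 : X)) ∧
        ∀ f ∈ G, Sum.inl (Sum.inr f) ∈ W) := fun e' b =>
    exists_box68 (Subtype.val : closure (pts U) → X) continuous_subtype_val φ hφs U (Box e' b)
      (hBc e' b)
  choose W hWc hWU hWb using hW
  obtain ⟨sp, hsp⟩ : ∃ sp : (X ⊕ C(X, ℝ)) ⊕ Γ → Set Γ, ∀ t γ, γ ∈ sp t ↔
      ∃ (x : X) (hx : Sum.inl x ∈ U), t = Sum.inl (Sum.inl x) ∧
        φ ⟨x, subset_closure hx⟩ γ ≠ 0 :=
    ⟨fun t => {γ | ∃ (x : X) (hx : Sum.inl x ∈ U), t = Sum.inl (Sum.inl x) ∧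
      φ ⟨x, subset_closure hx⟩ γ ≠ 0}, fun _ _ => Iff.rfl⟩
  have hspc : ∀ t, (sp t).Countable := by
    intro t
    by_cases h : ∃ (x : X) (hx : Sum.inl x ∈ U), t = Sum.inl (Sum.inl x)
    · obtain ⟨x, hx, rfl⟩ := h
      refine (hφs ⟨x, subset_closure hx⟩).mono ?_
      intro γ hγ
      obtain ⟨x', hx', he, hne⟩ := (hsp _ _).1 hγ
      obtain rfl := Sum.inl_injective (Sum.inl_injective he)
      exact hne
    · have h1 : sp t = ∅ := by
        ext γ
        rw [hsp]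
        constructor
        · rintro ⟨x, hx, he, -⟩
          exact absurd ⟨x, hx, he⟩ h
        · intro hγ
          exact absurd hγ (notMem_empty _)
      rw [h1]
      exact countable_empty
  obtain ⟨Φ, hΦ⟩ : ∃ Φ : Finset ((X ⊕ C(X, ℝ)) ⊕ Γ) → Set ((X ⊕ C(X, ℝ)) ⊕ Γ), ∀ e,
      Φ e = (⋃ t ∈ (↑e : Set ((X ⊕ C(X, ℝ)) ⊕ Γ)), Sum.inr '' sp t) ∪
        ⋃ e' ∈ {e' : Finset Γ | ∀ γ ∈ e', Sum.inr γ ∈ e}, ⋃ b, W e' b := ⟨_, fun _ => rfl⟩
  have hΦc : CV Φ := by
    intro e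
    rw [hΦ]
    refine (e.countable_toSet.biUnion fun t _ => (hspc t).image _).union ?_
    refine Countable.biUnion ?_ fun e' _ => countable_iUnion fun b => hWc e' b
    refine Set.Finite.countable ?_
    refine ((e.preimage Sum.inr Sum.inr_injective.injOn).powerset.finite_toSet).subset ?_
    intro e' he'
    rw [Finset.mem_coe, Finset.mem_powerset]
    intro γ hγ
    rw [Finset.mem_preimage]
    exact he' γ hγ
  have hΦU : ∀ e t, Sum.inl t ∈ Φ e → t ∈ U := by
    intro e t ht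
    rw [hΦ] at ht
    rcases ht with ht | ht
    · simp only [mem_iUnion] at ht
      obtain ⟨_, _, γ, _, hγ⟩ := ht
      exact absurd hγ (by simp)
    · simp only [mem_iUnion] at ht
      obtain ⟨e', _, b, hb⟩ := ht
      exact hWU e' b t hb
  refine ⟨fun e => Sum.inl ⁻¹' cl Φ (Sum.inl '' (↑e : Set (X ⊕ C(X, ℝ)))), ?_, ?_⟩
  · intro e
    exact (countable_cl hΦc (e.finite_toSet.image _).countable).preimage Sum.inl_injective
  intro N hNU hN p hp q hq hpq
  obtain ⟨S, hS⟩ : ∃ S, S = cl Φ (Sum.inl '' N) := ⟨_, rfl⟩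
  have hSc : Clo Φ S := by rw [hS]; exact clo_cl _
  have hSN : ∀ t, Sum.inl t ∈ S → t ∈ N := by
    intro t ht
    rw [hS] at ht
    exact trace68 hΦU hNU hN ht
  have hNS : ∀ t ∈ N, Sum.inl t ∈ S := by
    intro t ht
    rw [hS]
    exact subset_cl _ ⟨t, ht, rfl⟩
  have hptsU : pts N ⊆ pts U := fun x hx => hNU hx
  have hpK : p ∈ closure (pts U) := closure_mono hptsU hp
  have hqK : q ∈ closure (pts U) := closure_mono hptsU hq
  -- supports
  have hsupp : ∀ (y : X) (hy : y ∈ closure (pts N)) (γ : Γ),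
      φ ⟨y, closure_mono hptsU hy⟩ γ ≠ 0 → Sum.inr γ ∈ S := by
    intro y hy γ
    contrapose!
    intro hγ
    have h1 : (⟨y, closure_mono hptsU hy⟩ : closure (pts U)) ∈
        closure {z : closure (pts U) | (z : X) ∈ pts N} := by
      refine closure_subtype.2 ?_
      have h2 : (Subtype.val '' {z : closure (pts U) | (z : X) ∈ pts N}) = pts N := by
        ext x
        constructor
        · rintro ⟨z, hz, rfl⟩
          exact hz
        · intro hx
          exact ⟨⟨x, subset_closure (hptsU hx)⟩, hx, rfl⟩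
      rw [h2]
      exact hy
    have h3 : IsClosed {z : closure (pts U) | φ z γ = 0} := isClosed_eq (hco γ) continuous_const
    refine (closure_minimal ?_ h3) h1
    intro z hz
    by_contra hne
    apply hγ
    refine hSc {Sum.inl (Sum.inl (z : X))} (Finset.singleton_nonempty _) ?_ ?_
    · rw [Finset.coe_singleton]
      exact singleton_subset_iff.2 (hNS _ hz)
    · rw [hΦ]
      refine Or.inl ?_
      refine mem_biUnion (Finset.mem_coe.2 (Finset.mem_singleton_self _)) ?_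
      refine ⟨γ, ?_, rfl⟩
      rw [hsp]
      exact ⟨(z : X), hptsU hz, rfl, hne⟩
  obtain ⟨p', hp'⟩ : ∃ p' : closure (pts U), p' = ⟨p, hpK⟩ := ⟨_, rfl⟩
  obtain ⟨q', hq'⟩ : ∃ q' : closure (pts U), q' = ⟨q, hqK⟩ := ⟨_, rfl⟩
  have hp0 : ∀ γ, Sum.inr γ ∉ S → φ p' γ = 0 := by
    intro γ hγ
    by_contra hne
    rw [hp'] at hne
    exact hγ (hsupp p hp γ hne)
  have hq0 : ∀ γ, Sum.inr γ ∉ S → φ q' γ = 0 := by
    intro γ hγ
    by_contra hne
    rw [hq'] at hne
    exact hγ (hsupp q hq γ hne)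
  obtain ⟨x0, hx0⟩ : (pts N).Nonempty := by
    rw [← closure_nonempty_iff]
    exact ⟨p, hp⟩
  -- approximation
  have happ : ∀ (e' : Finset Γ) (ε : ℝ), 0 < ε →
      ∃ w : closure (pts U) × closure (pts U), Eqv U (w.1 : X) (w.2 : X) ∧
        (∀ γ, Sum.inr γ ∉ S → φ w.1 γ = 0 ∧ φ w.2 γ = 0) ∧
        ∀ γ ∈ e', |φ w.1 γ - φ p' γ| ≤ ε ∧ |φ w.2 γ - φ q' γ| ≤ ε := by
    intro e0 ε hε
    obtain ⟨e', he'⟩ : ∃ e' : Finset Γ, e' = e0.filter fun γ => Sum.inr γ ∈ S := ⟨_, rfl⟩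
    obtain ⟨δ, hδ0, hδ1⟩ := exists_rat_btwn (show (0 : ℝ) < ε / 2 by linarith)
    have hu : ∀ γ : e', ∃ u : ℚ, |φ p' γ - u| ≤ δ := by
      intro γ
      obtain ⟨u, hu1, hu2⟩ := exists_rat_btwn (show φ p' γ < φ p' γ + δ by linarith)
      refine ⟨u, ?_⟩
      rw [abs_le]
      constructor <;> linarith
    have hv : ∀ γ : e', ∃ v : ℚ, |φ q' γ - v| ≤ δ := by
      intro γ
      obtain ⟨u, hu1, hu2⟩ := exists_rat_btwn (show φ q' γ < φ q' γ + δ by linarith)
      refine ⟨u, ?_⟩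
      rw [abs_le]
      constructor <;> linarith
    choose u hu using hu
    choose v hv using hv
    have hmem : (p', q') ∈ Box e' (u, v, δ) := by
      rw [hBox]
      exact fun γ => ⟨hu γ, hv γ⟩
    have hWS : W e' (u, v, δ) ⊆ S := by
      refine subset_trans ?_ (hSc (insert (Sum.inl (Sum.inl x0)) (e'.image Sum.inr))
        (Finset.insert_nonempty _ _) ?_)
      · intro t ht
        rw [hΦ]
        refine Or.inr ?_
        refine mem_biUnion (x := e') ?_ (mem_iUnion.2 ⟨(u, v, δ), ht⟩)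
        intro γ hγ
        exact Finset.mem_insert_of_mem (Finset.mem_image_of_mem _ hγ)
      · intro t ht
        rw [Finset.mem_coe, Finset.mem_insert, Finset.mem_image] at ht
        rcases ht with rfl | ⟨γ, hγ, rfl⟩
        · exact hNS _ hx0
        · rw [he', Finset.mem_filter] at hγ
          exact hγ.2
    rcases hWb e' (u, v, δ) with ⟨w, hwB, hwE, hwS⟩ | ⟨G, hG1, hG2⟩
    · refine ⟨w, hwE, ?_, ?_⟩
      · intro γ hγ
        constructor
        · by_contra hne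
          exact hγ (hWS (hwS γ (Or.inl hne)))
        · by_contra hne
          exact hγ (hWS (hwS γ (Or.inr hne)))
      · intro γ hγ
        by_cases hγS : Sum.inr γ ∈ S
        · have hγe : γ ∈ e' := by
            rw [he', Finset.mem_filter]
            exact ⟨hγ, hγS⟩
          have h1 := (hBox _ _ _).1 hwB ⟨γ, hγe⟩
          have h2 := hu ⟨γ, hγe⟩
          have h3 := hv ⟨γ, hγe⟩
          have h4 : |φ w.1 γ - u ⟨γ, hγe⟩| ≤ δ := h1.1
          have h5 : |φ w.2 γ - v ⟨γ, hγe⟩| ≤ δ := h1.2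
          have h6 : |φ p' γ - u ⟨γ, hγe⟩| ≤ δ := h2
          have h7 : |φ q' γ - v ⟨γ, hγe⟩| ≤ δ := h3
          rw [abs_le] at h4 h5 h6 h7
          constructor
          · rw [abs_le]
            constructor <;> linarith [h4.1, h4.2, h6.1, h6.2]
          · rw [abs_le]
            constructor <;> linarith [h5.1, h5.2, h7.1, h7.2]
        · have h1 : φ w.1 γ = 0 := by
            by_contra hne
            exact hγS (hWS (hwS γ (Or.inl hne)))
          have h2 : φ w.2 γ = 0 := by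
            by_contra hne
            exact hγS (hWS (hwS γ (Or.inr hne)))
          rw [h1, h2, hp0 γ hγS, hq0 γ hγS, sub_zero, abs_zero]
          exact ⟨hε.le, hε.le⟩
    · exfalso
      obtain ⟨f, hf, hne⟩ := hG1 _ hmem
      have h1 : Sum.inr f ∈ N := hSN _ (hWS (hG2 f hf))
      apply hne
      have h2 := hpq f h1
      rw [hp', hq']
      exact h2
  -- compactness
  obtain ⟨T, hT⟩ : ∃ T : Finset Γ × ℕ → Set (closure (pts U) × closure (pts U)), ∀ i,
      T i = {w | Eqv U (w.1 : X) (w.2 : X)} ∩ ⋂ γ ∈ i.1,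
        ({w | |φ w.1 γ - φ p' γ| ≤ 1 / ((i.2 : ℝ) + 1)} ∩
          {w | |φ w.2 γ - φ q' γ| ≤ 1 / ((i.2 : ℝ) + 1)}) := ⟨_, fun _ => rfl⟩
  have hRc : IsClosed {w : closure (pts U) × closure (pts U) | Eqv U (w.1 : X) (w.2 : X)} := by
    have h1 : {w : closure (pts U) × closure (pts U) | Eqv U (w.1 : X) (w.2 : X)} =
        ⋂ f : C(X, ℝ), ⋂ _ : Sum.inr f ∈ U, {w | f (w.1 : X) = f (w.2 : X)} := by
      ext w
      simp only [mem_ofPred_eq, mem_iInter, Eqv]
    rw [h1]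
    refine isClosed_iInter fun f => isClosed_iInter fun _ => ?_
    exact isClosed_eq (f.continuous.comp (continuous_subtype_val.comp continuous_fst))
      (f.continuous.comp (continuous_subtype_val.comp continuous_snd))
  have hTc : ∀ i, IsClosed (T i) := by
    intro i
    rw [hT]
    refine hRc.inter (isClosed_biInter fun γ _ => IsClosed.inter ?_ ?_)
    · exact isClosed_le (((hco γ).comp continuous_fst).sub continuous_const).abs continuous_const
    · exact isClosed_le (((hco γ).comp continuous_snd).sub continuous_const).abs continuous_const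
  have hTn : ∀ i, (T i).Nonempty := by
    intro i
    obtain ⟨w, hw1, -, hw3⟩ := happ i.1 (1 / ((i.2 : ℝ) + 1)) (by positivity)
    refine ⟨w, ?_⟩
    rw [hT]
    exact ⟨hw1, mem_iInter₂.2 fun γ hγ => ⟨(hw3 γ hγ).1, (hw3 γ hγ).2⟩⟩
  have hTd : Directed (· ⊇ ·) T := by
    intro i i'
    have key : ∀ {a b : Finset Γ × ℕ}, a.1 ⊆ b.1 → a.2 ≤ b.2 → T b ⊆ T a := by
      intro a b hab1 hab2 w hw
      rw [hT] at hw ⊢
      refine ⟨hw.1, mem_iInter₂.2 fun γ hγ => ?_⟩
      have h1 := mem_iInter₂.1 hw.2 γ (hab1 hγ)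
      have h2 : 1 / ((b.2 : ℝ) + 1) ≤ 1 / ((a.2 : ℝ) + 1) := by
        apply one_div_le_one_div_of_le (by positivity)
        have : (a.2 : ℝ) ≤ b.2 := by exact_mod_cast hab2
        linarith
      exact ⟨le_trans h1.1 h2, le_trans h1.2 h2⟩
    exact ⟨(i.1 ∪ i'.1, max i.2 i'.2), key Finset.subset_union_left (le_max_left _ _),
      key Finset.subset_union_right (le_max_right _ _)⟩
  obtain ⟨w, hw⟩ := IsCompact.nonempty_iInter_of_directed_nonempty_isCompact_isClosed T hTd hTn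
    (fun i => (hTc i).isCompact) hTc
  have hwi : ∀ i, w ∈ T i := mem_iInter.1 hw
  have hlim : ∀ a c : ℝ, (∀ n : ℕ, |a - c| ≤ 1 / ((n : ℝ) + 1)) → a = c := by
    intro a c hac
    by_contra hne
    have h1 : 0 < |a - c| := abs_pos.2 (sub_ne_zero.2 hne)
    obtain ⟨n, hn⟩ := exists_nat_one_div_lt h1
    exact absurd (hac n) (not_le.2 hn)
  have hw1 : w.1 = p' := by
    apply hφi
    funext γ
    apply hlim
    intro n
    have h1 := hwi ({γ}, n)
    rw [hT] at h1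
    exact (mem_iInter₂.1 h1.2 γ (Finset.mem_singleton_self γ)).1
  have hw2 : w.2 = q' := by
    apply hφi
    funext γ
    apply hlim
    intro n
    have h1 := hwi ({γ}, n)
    rw [hT] at h1
    exact (mem_iInter₂.1 h1.2 γ (Finset.mem_singleton_self γ)).2
  have h1 := hwi (∅, 0)
  rw [hT] at h1
  have h2 : Eqv U (w.1 : X) (w.2 : X) := h1.1
  rw [hw1, hw2, hp', hq'] at h2
  exact h2

end Pool.Agent.Helper15.QD
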