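import Pool.Agent.Helper19.QR.TightB
import Pool.Agent.Helper15.CQ.Space

/-!
# Countable tightness, Corson case

If all closures of sets of size at most the continuum in the compact space `X` are Corson, then `X` is countably
tight. (The proofs are those of `Helper93/EC/Measure.lean` (helper93) and `Helper19/QR/TightB.lean` (helper38);
they use only that the supports are countable.)
-/

set_option autoImplicit false

open Set Cardinal

namespace Pool.Agent.Helper15.QD

open Pool.Agent.Helper19.QR
open Pool.Agent.Helper15.CQ (IsCorson)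
open Pool.Agent.Helper93.EC (exists_countable_closed)

section

variable {X : Type} [TopologicalSpace X] [CompactSpace X] [T2Space X]

/-- Points of the closure of `E` are in the closure of a countable subset. -/
theorem countable_of_corson {E : Set X} (hE : IsCorson (closure E)) {z : X}
    (hz : z ∈ closure E) : ∃ D ⊆ E, D.Countable ∧ z ∈ closure D := by
  obtain ⟨Γ, f, hfc, hfi, hf0⟩ := hE
  have hcomp : CompactSpace (closure E) := isCompact_iff_compactSpace.1 isClosed_closure.isCompact
  have hemb := hfc.isClosedEmbedding hfi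
  let Z : closure E := ⟨z, hz⟩
  have hpick : ∀ (F : Finset Γ) (n : ℕ), ∃ e : closure E, (e : X) ∈ E ∧
      ∀ γ ∈ F, |f e γ - f Z γ| < 1 / ((n : ℝ) + 1) := by
    intro F n
    have hopen : IsOpen {y : closure E | ∀ γ ∈ F, |f y γ - f Z γ| < 1 / ((n : ℝ) + 1)} := by
      have : {y : closure E | ∀ γ ∈ F, |f y γ - f Z γ| < 1 / ((n : ℝ) + 1)} =
          ⋂ γ ∈ F, {y : closure E | |f y γ - f Z γ| < 1 / ((n : ℝ) + 1)} := by
        ext y
        simp
      rw [this]
      refine isOpen_biInter_finset fun γ _ => ?_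
      have hc : Continuous fun y : closure E => |f y γ - f Z γ| :=
        (((continuous_apply γ).comp hfc).sub continuous_const).abs
      exact isOpen_lt hc continuous_const
    have hZ : Z ∈ {y : closure E | ∀ γ ∈ F, |f y γ - f Z γ| < 1 / ((n : ℝ) + 1)} := by
      intro γ _
      rw [sub_self, abs_zero]
      positivity
    obtain ⟨U, hU, hUeq⟩ := isOpen_induced_iff.1 hopen
    have hzU : z ∈ U := by
      have : Z ∈ Subtype.val ⁻¹' U := by
        rw [hUeq]
        exact hZ
      exact this
    obtain ⟨e, he1, he2⟩ := mem_closure_iff.1 hz U hU hzU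
    refine ⟨⟨e, subset_closure he2⟩, he2, ?_⟩
    have : (⟨e, subset_closure he2⟩ : closure E) ∈ Subtype.val ⁻¹' U := he1
    rw [hUeq] at this
    exact this
  choose e he1 he2 using hpick
  obtain ⟨C, hC, hCop⟩ := exists_countable_closed
    (fun F : Finset Γ => {γ | f Z γ ≠ 0} ∪ ⋃ n : ℕ, {γ | f (e F n) γ ≠ 0})
    (fun F => (hf0 Z).union
      (Set.countable_iUnion fun n => hf0 _))
  let D' : Set (closure E) := {y | ∃ (F : Finset Γ) (n : ℕ), (↑F : Set Γ) ⊆ C ∧ y = e F n}
  have hD'c : D'.Countable := by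
    have h1 : {F : Finset Γ | (↑F : Set Γ) ⊆ C}.Countable := by
      have h1 := Set.countable_setOf_finite_subset hC
      have h2 : Set.InjOn (fun F : Finset Γ => (↑F : Set Γ))
          {F : Finset Γ | (↑F : Set Γ) ⊆ C} := fun a _ b _ hab => Finset.coe_injective hab
      refine Set.countable_of_injective_of_countable_image h2 (h1.mono ?_)
      rintro _ ⟨F, hF, rfl⟩
      exact ⟨F.finite_toSet, hF⟩
    have h2 : D' = ⋃ F ∈ {F : Finset Γ | (↑F : Set Γ) ⊆ C}, Set.range (e F) := by
      ext y
      constructor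
      · rintro ⟨F, n, hF, rfl⟩
        exact mem_iUnion₂.2 ⟨F, hF, n, rfl⟩
      · intro hy
        obtain ⟨F, hF, n, hn⟩ := mem_iUnion₂.1 hy
        exact ⟨F, n, hF, hn.symm⟩
    rw [h2]
    exact h1.biUnion fun F _ => Set.countable_range _
  refine ⟨Subtype.val '' D', ?_, hD'c.image _, ?_⟩
  · rintro _ ⟨y, ⟨F, n, -, rfl⟩, rfl⟩
    exact he1 F n
  · have hZcl : Z ∈ closure D' := by
      rw [hemb.isInducing.closure_eq_preimage_closure_image]
      change f Z ∈ closure (f '' D')
      rw [mem_closure_iff]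
      intro o ho hzo
      obtain ⟨F, u, hF1, hF2⟩ := isOpen_pi_iff.1 ho _ hzo
      classical
      -- choose a uniform radius
      have hrad : ∀ γ ∈ F, ∃ n : ℕ, ∀ t : ℝ, |t - f Z γ| < 1 / ((n : ℝ) + 1) → t ∈ u γ := by
        intro γ hγ
        obtain ⟨hopen, hmem⟩ := hF1 γ hγ
        obtain ⟨ε, hε, hball⟩ := Metric.isOpen_iff.1 hopen _ hmem
        obtain ⟨n, hn⟩ := exists_nat_one_div_lt hε
        refine ⟨n, fun t ht => hball ?_⟩
        rw [Metric.mem_ball, Real.dist_eq]
        exact ht.trans hn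
      choose! nn hnn using hrad
      let N := F.sup nn
      let F' := F.filter (fun γ => γ ∈ C)
      have hF'C : (↑F' : Set Γ) ⊆ C := by
        intro γ hγ
        exact (Finset.mem_filter.1 hγ).2
      refine ⟨f (e F' N), hF2 ?_, ⟨e F' N, ⟨F', N, hF'C, rfl⟩, rfl⟩⟩
      intro γ hγ
      refine hnn γ hγ _ ?_
      have hle : 1 / ((N : ℝ) + 1) ≤ 1 / ((nn γ : ℝ) + 1) := by
        apply one_div_le_one_div_of_le (by positivity)
        have : nn γ ≤ N := Finset.le_sup (f := nn) hγ
        have : (nn γ : ℝ) ≤ (N : ℝ) := by exact_mod_cast this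
        linarith
      by_cases hγC : γ ∈ C
      · exact (he2 F' N γ (Finset.mem_filter.2 ⟨hγ, hγC⟩)).trans_le hle
      · have h1 : f Z γ = 0 := by
          by_contra h
          exact hγC (hCop F' hF'C (Or.inl h))
        have h2 : f (e F' N) γ = 0 := by
          by_contra h
          exact hγC (hCop F' hF'C (Or.inr (mem_iUnion.2 ⟨N, h⟩)))
        rw [h1, h2, sub_zero, abs_zero]
        positivity
    exact image_closure_subset_closure_image continuous_subtype_val ⟨Z, hZcl, rfl⟩

end

theorem tight_of_corson {X : Type} [TopologicalSpace X] [CompactSpace X] [T2Space X]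
    (hX : ∀ A : Set X, #A ≤ 𝔠 → IsCorson (closure A)) : Tight X := by
  classical
  intro B x hxB
  by_contra hcon
  push Not at hcon
  let B' : Set X := {z | ∃ D ⊆ B, D.Countable ∧ z ∈ closure D}
  have hxB' : x ∉ B' := fun ⟨D, h1, h2, h3⟩ => hcon D h1 h2 h3
  have hcl : ∀ E ⊆ B', E.Countable → closure E ⊆ B' := by
    intro E hE hc z hz
    have hch : ∀ e : E, ∃ D ⊆ B, D.Countable ∧ (e : X) ∈ closure D := fun e => hE e.2
    choose D hD1 hD2 hD3 using hch
    have := hc.to_subtype
    refine ⟨⋃ e : E, D e, iUnion_subset hD1, countable_iUnion hD2, ?_⟩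
    refine closure_minimal (fun e he => ?_) isClosed_closure hz
    exact closure_mono (subset_iUnion D ⟨e, he⟩) (hD3 ⟨e, he⟩)
  obtain ⟨I, _, _, hIc, hI⟩ := exists_index38
  -- the recursion
  let S : Type := {p : X × C(X, ℝ) // p.1 ∈ B' ∧ p.2 x = 0}
  obtain ⟨F, hF⟩ := exists_rec38 (I := I) (S := S)
    (fun i g s => (∀ z ∈ closure (range fun j : Iio i => (g j).1.1), s.1.2 z = 1) ∧
      (∀ j : Iio i, (g j).1.2 s.1.1 = 0) ∧ s.1.2 s.1.1 = 0) (by
      intro i g
      have := (hIc i).to_subtype
      have hsub : closure (range fun j : Iio i => (g j).1.1) ⊆ B' := by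
        refine hcl _ ?_ (countable_range _)
        rintro _ ⟨j, rfl⟩
        exact (g j).2.1
      obtain ⟨f, hf0, hf1, -⟩ := exists_continuous_zero_one_of_isClosed
        (isClosed_singleton (x := x)) (isClosed_closure (s := range fun j : Iio i => (g j).1.1))
        (Set.disjoint_singleton_left.2 fun h => hxB' (hsub h))
      have hfx : f x = 0 := hf0 (mem_singleton x)
      obtain ⟨y, hy1, hy2⟩ := exists_zero38 hxB (insert f (range fun j : Iio i => (g j).1.2))
        ((countable_range _).insert _) (by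
          rintro h (rfl | ⟨j, rfl⟩)
          · exact hfx
          · exact (g j).2.2)
      refine ⟨⟨(y, f), hy1, hfx⟩, fun z hz => hf1 hz, fun j => ?_, ?_⟩
      · exact hy2 _ (mem_insert_of_mem _ (mem_range_self j))
      · exact hy2 _ (mem_insert _ _))
  have hI0 : Nonempty I := by
    rw [← mk_ne_zero_iff, hI]
    exact (aleph_pos 1).ne'
  have hIunc : ¬ Countable I := by
    intro hc
    have h1 : #I ≤ aleph0 := mk_le_aleph0_iff.2 hc
    rw [hI] at h1
    exact absurd h1 (not_le.2 aleph0_lt_aleph_one)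
  let y : I → X := fun i => (F i).1.1
  let f : I → C(X, ℝ) := fun i => (F i).1.2
  have hf1 : ∀ i j : I, j < i → ∀ z ∈ closure (y '' Iio i), f i z = 1 := by
    intro i j _ z hz
    refine (hF i).1 z ?_
    have : (range fun j : Iio i => (F j).1.1) = y '' Iio i := by
      ext w
      constructor
      · rintro ⟨j, rfl⟩
        exact ⟨j.1, j.2, rfl⟩
      · rintro ⟨j, hj, rfl⟩
        exact ⟨⟨j, hj⟩, rfl⟩
    rw [this]
    exact hz
  have hf0 : ∀ i j : I, i ≤ j → f i (y j) = 0 := by
    intro i j hij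
    rcases hij.eq_or_lt with h | h
    · subst h
      exact (hF i).2.2
    · exact (hF j).2.1 ⟨i, h⟩
  obtain ⟨z, hz⟩ := exists_clusterPt_of_compactSpace (Filter.map y Filter.atTop)
  have hz' : MapClusterPt z Filter.atTop y := hz
  have hfz : ∀ i, f i z = 0 := by
    intro i
    by_contra hne
    have hU : {w : X | f i w ≠ 0} ∈ nhds z :=
      (isOpen_ne_fun (f i).continuous continuous_const).mem_nhds hne
    have hfr := mapClusterPt_iff_frequently.1 hz' _ hU
    rw [Filter.frequently_atTop] at hfr
    obtain ⟨j, hj1, hj2⟩ := hfr i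
    exact hj2 (hf0 i j hj1)
  have hzA : z ∈ closure (range y) := by
    rw [mem_closure_iff_nhds]
    intro U hU
    obtain ⟨i, hi⟩ := (mapClusterPt_iff_frequently.1 hz' U hU).exists
    exact ⟨y i, hi, mem_range_self i⟩
  have hA : #(range y) ≤ 𝔠 := by
    refine mk_range_le.trans ?_
    rw [hI]
    exact aleph_one_le_continuum
  obtain ⟨D, hD1, hD2, hD3⟩ :=
    countable_of_corson (hX _ hA) hzA
  have hch : ∀ d : D, ∃ i, y i = d := fun d => hD1 d.2
  choose k hk using hch
  have hDc := hD2.to_subtype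
  have hcov : (⋃ d : D, Iic (k d)).Countable := by
    refine countable_iUnion fun d => ?_
    rw [← Iio_insert]
    exact (hIc _).insert _
  obtain ⟨i, hi⟩ : ∃ i, i ∉ ⋃ d : D, Iic (k d) := by
    by_contra hall
    push Not at hall
    apply hIunc
    rw [← countable_univ_iff]
    exact hcov.mono fun i _ => hall i
  simp only [mem_iUnion, mem_Iic, not_exists, not_le] at hi
  have hDsub : D ⊆ y '' Iio i := fun d hd => ⟨k ⟨d, hd⟩, hi ⟨d, hd⟩, hk ⟨d, hd⟩⟩
  have hzc : z ∈ closure (y '' Iio i) := closure_mono hDsub hD3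
  have hne : (y '' Iio i).Nonempty := closure_nonempty_iff.1 ⟨z, hzc⟩
  obtain ⟨_, j, hj, -⟩ := hne
  have h1 := hf1 i j hj z hzc
  rw [hfz i] at h1
  exact zero_ne_one h1

end Pool.Agent.Helper15.QD
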