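import Pool.Agent.Helper15.QD.PAll
import Pool.Agent.Helper15.QD.TightC
import Pool.Agent.Helper15.QD.SmallC
import Pool.Agent.Helper15.QD.Ladder
import Pool.Agent.Helper19.QR.Sigma

/-!
# Scattered compact spaces

A scattered compact space whose closures of size at most the continuum are Corson is Eberlein, under
reflection of sigma-discreteness (`DR`, `FR`). The second half of the argument, from families of countable supports to finite
supports, is Alster's theorem (scattered Corson compact spaces are Eberlein), with a proof by filtrations.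
-/

set_option autoImplicit false

open Set Cardinal

namespace Pool.Agent.Helper15.QD

open Pool.Agent.Helper19.QR
open Pool.Agent.Helper15.CQ (DR IsCorson)
open Pool.Agent.Helper93.EC (EmbedsC0)

/-- every nonempty set has an isolated point -/
def Scattered (X : Type) [TopologicalSpace X] : Prop :=
  ∀ S : Set X, S.Nonempty → ∃ x ∈ S, ∃ U : Set X, IsOpen U ∧ U ∩ S = {x}

theorem countable_lists {α : Type} {A : Set α} (hA : A.Countable) : {s : List α | ∀ q ∈ s, q ∈ A}.Countable := by
  have := hA.to_subtype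
  refine (countable_range fun l : List A => l.map Subtype.val).mono fun s hs => ?_
  refine ⟨s.attach.map fun y => ⟨y.1, hs y.1 y.2⟩, ?_⟩
  simp

/-- the rank of a compact set, and its top point -/
theorem exists_rank {X : Type} [TopologicalSpace X] (hX : Scattered X) (x₀ : X) :
    ∃ (I : Type) (_ : LinearOrder I) (_ : WellFoundedLT I) (rk : Set X → I) (t : Set X → X),
      ∀ W, IsCompact W → W.Nonempty → t W ∈ W ∧
        ∀ W' ⊆ W, IsCompact W' → W'.Nonempty → t W ∉ W' → rk W' < rk W := by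
  classical
  let I : Type := (Order.succ #X).ord.ToType
  have hI : #I = Order.succ #X := mk_ord_toType _
  obtain ⟨F, hF⟩ := exists_rec38 (I := I) (S := X) (fun i g s =>
    (range g)ᶜ.Nonempty → s ∈ (range g)ᶜ ∧ ∃ U : Set X, IsOpen U ∧ U ∩ (range g)ᶜ = {s}) (by
      intro i g
      by_cases h : (range g)ᶜ.Nonempty
      · obtain ⟨x, hx, U, hU, hUx⟩ := hX _ h
        exact ⟨x, fun _ => ⟨hx, U, hU, hUx⟩⟩
      · exact ⟨x₀, fun h' => absurd h' h⟩)
  have hr : ∀ i : I, (range fun j : Iio i => F j) = F '' Iio i := by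
    intro i
    ext y
    constructor
    · rintro ⟨j, rfl⟩
      exact ⟨j.1, j.2, rfl⟩
    · rintro ⟨j, hj, rfl⟩
      exact ⟨⟨j, hj⟩, rfl⟩
  have hF1 : ∀ i : I, F '' Iio i ≠ Set.univ → F i ∉ F '' Iio i ∧
      ∃ U : Set X, IsOpen U ∧ U ∩ (F '' Iio i)ᶜ = {F i} := by
    intro i hi
    have h1 := hF i
    rw [hr] at h1
    exact h1 (nonempty_compl.2 hi)
  -- the process ends
  have hend : ∃ i : I, F '' Iio i = Set.univ := by
    by_contra hcon
    push Not at hcon
    have hinj : Function.Injective F := by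
      intro i j hij
      rcases lt_trichotomy i j with h | h | h
      · exact absurd ⟨i, h, hij⟩ (hF1 j (hcon j)).1
      · exact h
      · exact absurd ⟨j, h, hij.symm⟩ (hF1 i (hcon i)).1
    have h1 := mk_le_of_injective hinj
    rw [hI] at h1
    exact absurd h1 (not_le.2 (Order.lt_succ _))
  obtain ⟨z, hz, hzmin⟩ := WellFounded.has_min (wellFounded_lt (α := I)) {i | F '' Iio i = Set.univ} hend
  have hlt : ∀ i < z, F '' Iio i ≠ Set.univ := fun i hi h => hzmin i h hi
  -- initial segments are open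
  have hopen : ∀ i < z, IsOpen (F '' Iic i) := by
    intro i
    induction i using WellFoundedLT.induction with
    | ind i ih =>
      intro hi
      obtain ⟨h1, U, hU, hUi⟩ := hF1 i (hlt i hi)
      have h2 : F '' Iic i = (⋃ j ∈ Iio i, F '' Iic j) ∪ U := by
        ext y
        constructor
        · rintro ⟨j, hj, rfl⟩
          rcases (mem_Iic.1 hj).lt_or_eq with h | h
          · exact Or.inl (mem_biUnion (x := j) h ⟨j, le_refl j, rfl⟩)
          · have : F j ∈ U ∩ (F '' Iio i)ᶜ := by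
              rw [hUi, h]
              rfl
            exact Or.inr this.1
        · rintro (h | h)
          · simp only [mem_iUnion] at h
            obtain ⟨j, hj, k, hk, rfl⟩ := h
            exact ⟨k, (mem_Iic.1 hk).trans (le_of_lt hj), rfl⟩
          · by_cases hy : y ∈ F '' Iio i
            · exact image_mono Iio_subset_Iic_self hy
            · have : y ∈ U ∩ (F '' Iio i)ᶜ := ⟨h, hy⟩
              rw [hUi] at this
              exact ⟨i, le_refl i, this.symm⟩
      rw [h2]
      exact (isOpen_biUnion fun j hj => ih j hj (lt_trans hj hi)).union hU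
  -- compact sets are contained in initial segments
  have hcpt : ∀ k ≤ z, ∀ W, IsCompact W → W.Nonempty → W ⊆ F '' Iio k → ∃ i < k, W ⊆ F '' Iic i := by
    intro k hk W hW hWne hWk
    obtain ⟨s, hs⟩ := hW.elim_finite_subcover (fun i : Iio k => F '' Iic (i : I))
      (fun i => hopen i (lt_of_lt_of_le i.2 hk)) (by
        intro y hy
        obtain ⟨j, hj, rfl⟩ := hWk hy
        exact mem_iUnion.2 ⟨⟨j, hj⟩, j, le_refl j, rfl⟩)
    obtain ⟨y, hy⟩ := hWne
    have hsne : s.Nonempty := by
      have h1 := hs hy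
      simp only [mem_iUnion] at h1
      obtain ⟨i, hi, -⟩ := h1
      exact ⟨i, hi⟩
    refine ⟨(s.max' hsne).1, (s.max' hsne).2, fun y hy => ?_⟩
    have h1 := hs hy
    simp only [mem_iUnion] at h1
    obtain ⟨i, hi, j, hj, rfl⟩ := h1
    exact ⟨j, (mem_Iic.1 hj).trans (s.le_max' i hi), rfl⟩
  have hrk : ∀ W : Set X, ∃ i : I, IsCompact W → W.Nonempty → i < z ∧ W ⊆ F '' Iic i ∧
      ∀ j, W ⊆ F '' Iic j → i ≤ j := by
    intro W
    by_cases hW : IsCompact W ∧ W.Nonempty
    · obtain ⟨i, hi, hWi⟩ := hcpt z le_rfl W hW.1 hW.2 (by rw [show F '' Iio z = Set.univ from hz]; exact subset_univ W)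
      obtain ⟨k, hk, hkmin⟩ := WellFounded.has_min (wellFounded_lt (α := I)) {i | W ⊆ F '' Iic i} ⟨i, hWi⟩
      have hki : k ≤ i := not_lt.1 (hkmin i hWi)
      exact ⟨k, fun _ _ => ⟨hki.trans_lt hi, hk, fun j hj => not_lt.1 (hkmin j hj)⟩⟩
    · exact ⟨z, fun h1 h2 => absurd ⟨h1, h2⟩ hW⟩
  choose rk hrk using hrk
  refine ⟨I, inferInstance, inferInstance, rk, fun W => F (rk W), fun W hW hWne => ?_⟩
  obtain ⟨h1, h2, h3⟩ := hrk W hW hWne
  have key : ∀ W' ⊆ W, IsCompact W' → W'.Nonempty → F (rk W) ∉ W' → rk W' < rk W := by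
    intro W' hW'W hW' hW'ne hF'
    obtain ⟨k, hk, hk'⟩ := hcpt (rk W) h1.le W' hW' hW'ne (by
      intro y hy
      obtain ⟨j, hj, rfl⟩ := h2 (hW'W hy)
      rcases (mem_Iic.1 hj).lt_or_eq with h | h
      · exact ⟨j, h, rfl⟩
      · rw [h] at hy
        exact absurd hy hF')
    exact ((hrk W' hW' hW'ne).2.2 k hk').trans_lt hk
  refine ⟨?_, key⟩
  by_contra hcon
  exact lt_irrefl _ (key W subset_rfl hW hWne hcon)

section

variable {X : Type} [TopologicalSpace X]

/-- closed boxes -/
def box (s : List (C(X, ℝ) × ℚ × ℚ)) : Set X :=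
  {x | ∀ q ∈ s, (q.2.1 : ℝ) ≤ q.1 x ∧ q.1 x ≤ (q.2.2 : ℝ)}

theorem isClosed_box (s : List (C(X, ℝ) × ℚ × ℚ)) : IsClosed (box s) := by
  have : box s = ⋂ q : {q // q ∈ s}, ({x | (q.1.2.1 : ℝ) ≤ q.1.1 x} ∩ {x | q.1.1 x ≤ (q.1.2.2 : ℝ)}) := by
    ext x
    simp [box]
  rw [this]
  exact isClosed_iInter fun q => (isClosed_le continuous_const q.1.1.continuous).inter
    (isClosed_le q.1.1.continuous continuous_const)

/-- the points of closed sets form closed sets -/
theorem exists_pts_closed [CompactSpace X] [T2Space X] (hX : Scattered X) (x₀ : X) :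
    ∃ Φ : Finset (X ⊕ C(X, ℝ)) → Set (X ⊕ C(X, ℝ)), CV Φ ∧
      ∀ N, N.Nonempty → Clo Φ N →
        (∀ p ∈ closure (pts N), ∀ q ∈ closure (pts N), Eqv N p q → p = q) → closure (pts N) ⊆ pts N := by
  classical
  obtain ⟨I, _, _, rk, t, hrk⟩ := exists_rank hX x₀
  refine ⟨fun e => (fun s => Sum.inl (t (box s))) '' {s | ∀ q ∈ s, Sum.inr q.1 ∈ e}, fun e => ?_, ?_⟩
  · refine Countable.image ?_ _
    have h1 : {q : C(X, ℝ) × ℚ × ℚ | Sum.inr q.1 ∈ e}.Countable := by
      have h2 : {f : C(X, ℝ) | Sum.inr f ∈ e}.Countable :=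
        (e.countable_toSet).preimage Sum.inr_injective
      have h3 : {q : C(X, ℝ) × ℚ × ℚ | Sum.inr q.1 ∈ e} = {f : C(X, ℝ) | Sum.inr f ∈ e} ×ˢ Set.univ := by
        ext q
        simp
      rw [h3]
      exact h2.prod countable_univ
    exact countable_lists h1
  · intro N hN hclo hsep p hp
    obtain ⟨y₀, hy₀⟩ := hN
    have key : ∀ i : I, ∀ s : List (C(X, ℝ) × ℚ × ℚ), (∀ q ∈ s, Sum.inr q.1 ∈ N) → p ∈ box s →
        rk (box s) = i → p ∈ pts N := by
      intro i
      induction i using WellFoundedLT.induction with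
      | ind i ih =>
        intro s hs hps hi
        have hcs : IsCompact (box s) := (isClosed_box s).isCompact
        obtain ⟨h1, h2⟩ := hrk _ hcs ⟨p, hps⟩
        have ht : t (box s) ∈ pts N := by
          refine hclo (insert y₀ (s.map fun q => Sum.inr q.1).toFinset) (Finset.insert_nonempty _ _) ?_ ?_
          · intro x hx
            rw [Finset.mem_coe, Finset.mem_insert, List.mem_toFinset, List.mem_map] at hx
            rcases hx with rfl | ⟨q, hq, rfl⟩
            · exact hy₀
            · exact hs q hq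
          · refine ⟨s, fun q hq => ?_, rfl⟩
            rw [Finset.mem_insert, List.mem_toFinset, List.mem_map]
            exact Or.inr ⟨q, hq, rfl⟩
        by_cases hpt : p = t (box s)
        · rw [hpt]
          exact ht
        have h3 : ¬ Eqv N p (t (box s)) := fun h => hpt (hsep p hp _ (subset_closure ht) h)
        unfold Eqv at h3
        push Not at h3
        obtain ⟨f, hf, hne⟩ := h3
        obtain ⟨a, b, hab1, hab2, hab3⟩ : ∃ a b : ℚ, (a : ℝ) ≤ f p ∧ f p ≤ (b : ℝ) ∧
            ¬ ((a : ℝ) ≤ f (t (box s)) ∧ f (t (box s)) ≤ (b : ℝ)) := by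
          rcases lt_or_gt_of_ne hne with h | h
          · obtain ⟨b, hb1, hb2⟩ := exists_rat_btwn h
            obtain ⟨a, ha1, ha2⟩ := exists_rat_btwn (sub_one_lt (f p))
            exact ⟨a, b, ha2.le, hb1.le, fun h' => absurd h'.2 (not_le.2 hb2)⟩
          · obtain ⟨a, ha1, ha2⟩ := exists_rat_btwn h
            obtain ⟨b, hb1, hb2⟩ := exists_rat_btwn (lt_add_one (f p))
            exact ⟨a, b, ha2.le, hb1.le, fun h' => absurd h'.1 (not_le.2 ha1)⟩
        have hps' : p ∈ box ((f, a, b) :: s) := by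
          intro q hq
          rcases List.mem_cons.1 hq with rfl | hq
          · exact ⟨hab1, hab2⟩
          · exact hps q hq
        refine ih _ ?_ ((f, a, b) :: s) ?_ hps' rfl
        · rw [← hi]
          refine h2 _ (fun x hx q hq => hx q (List.mem_cons_of_mem _ hq)) (isClosed_box _).isCompact ⟨p, hps'⟩ ?_
          intro h
          exact hab3 (h (f, a, b) List.mem_cons_self)
        · intro q hq
          rcases List.mem_cons.1 hq with rfl | hq
          · exact hf
          · exact hs q hq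
    exact key _ [] (by simp) (by intro q hq; simp at hq) rfl

end

/-! ### Finite supports -/

/-- the property for the induction: finite supports -/
def PF {X : Type} [TopologicalSpace X] (N : Set (X ⊕ C(X, ℝ))) : Prop :=
  ∃ (Γ : Type) (g : Γ → C(X, ℝ)), (∀ x, {γ | g γ x ≠ 0}.Finite) ∧
    ∀ x y, Eqv N x y ↔ ∀ γ, g γ x = g γ y

theorem eqv_mono {X : Type} [TopologicalSpace X] {N N' : Set (X ⊕ C(X, ℝ))} (h : N ⊆ N') {x y : X}
    (hxy : Eqv N' x y) : Eqv N x y := fun f hf => hxy f (h hf)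

theorem eqv_symm {X : Type} [TopologicalSpace X] {N : Set (X ⊕ C(X, ℝ))} {x y : X}
    (hxy : Eqv N x y) : Eqv N y x := fun f hf => (hxy f hf).symm

theorem eqv_trans {X : Type} [TopologicalSpace X] {N : Set (X ⊕ C(X, ℝ))} {x y z : X}
    (hxy : Eqv N x y) (hyz : Eqv N y z) : Eqv N x z := fun f hf => (hxy f hf).trans (hyz f hf)

/-- countable closed sets -/
theorem pf_countable {X : Type} [TopologicalSpace X] [CompactSpace X] [T2Space X]
    {N : Set (X ⊕ C(X, ℝ))} (hNc : N.Countable) (h1 : N.Nonempty → RG N Set.univ) (h2 : N.Nonempty → Ret N)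
    (h3 : N.Nonempty → closure (pts N) ⊆ pts N) : PF N := by
  classical
  rcases N.eq_empty_or_nonempty with hN | hN
  · refine ⟨Empty, fun γ => γ.elim, fun x => Set.toFinite _, fun x y => ⟨fun _ γ => γ.elim, fun _ f hf => ?_⟩⟩
    rw [hN] at hf
    exact absurd hf (notMem_empty _)
  obtain ⟨r, hr1, hr2⟩ := exists_retraction (h1 hN) (h2 hN)
  have huniq : ∀ p ∈ closure (pts N), ∀ q ∈ closure (pts N), Eqv N p q → p = q := fun p hp q hq hpq =>
    eq_of_eqv_univ (h1 hN p hp q hq hpq)
  have hreq : ∀ x y, Eqv N x y → r x = r y := fun x y hxy =>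
    huniq _ (hr1 x) _ (hr1 y) (eqv_trans (eqv_symm (hr2 x)) (eqv_trans hxy (hr2 y)))
  by_cases hX : Nonempty X
  swap
  · exact ⟨Empty, fun γ => γ.elim, fun x => (hX ⟨x⟩).elim, fun x => (hX ⟨x⟩).elim⟩
  obtain ⟨x₀⟩ := hX
  have hpc : (pts N).Countable := hNc.preimage_of_injOn (Sum.inl_injective.injOn)
  obtain ⟨d, hd⟩ := hpc.exists_eq_range ⟨r x₀, h3 hN (hr1 x₀)⟩
  have hh : ∀ n : ℕ, ∃ h : C(X, ℝ), (∀ m < n, h (d m) = 0) ∧ ((∀ m < n, d m ≠ d n) → h (d n) = 1) := by
    intro n
    by_cases hn : ∀ m < n, d m ≠ d n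
    · have hfin : (d '' Iio n).Finite := (Set.finite_Iio n).image d
      obtain ⟨f, hf0, hf1, -⟩ := exists_continuous_zero_one_of_isClosed hfin.isClosed
        (isClosed_singleton (x := d n)) (by
          rw [Set.disjoint_singleton_right]
          rintro ⟨m, hm, hmn⟩
          exact hn m hm hmn)
      exact ⟨f, fun m hm => hf0 ⟨m, hm, rfl⟩, fun _ => hf1 (mem_singleton _)⟩
    · exact ⟨0, fun m _ => rfl, fun h => absurd h hn⟩
  choose h hh0 hh1 using hh
  refine ⟨ℕ, fun n => (h n).comp r, fun x => ?_, fun x y => ⟨fun hxy n => ?_, fun hxy => ?_⟩⟩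
  · obtain ⟨m, hm⟩ : r x ∈ range d := by
      rw [← hd]
      exact h3 hN (hr1 x)
    refine (Set.finite_Iic m).subset fun n hn => ?_
    by_contra hmn
    apply hn
    change h n (r x) = 0
    rw [← hm]
    exact hh0 n m (not_le.1 hmn)
  · change h n (r x) = h n (r y)
    rw [hreq x y hxy]
  · have hmin : ∀ z : X, ∃ m, d m = r z ∧ ∀ k < m, d k ≠ d m := by
      intro z
      have hz : ∃ m, d m = r z := by
        have : r z ∈ range d := by
          rw [← hd]
          exact h3 hN (hr1 z)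
        exact this
      refine ⟨Nat.find hz, Nat.find_spec hz, fun k hk hk' => ?_⟩
      exact Nat.find_min hz hk (hk'.trans (Nat.find_spec hz))
    obtain ⟨m, hm, hm'⟩ := hmin x
    obtain ⟨n, hn, hn'⟩ := hmin y
    have hmn : m = n := by
      rcases lt_trichotomy m n with hlt | hlt | hlt
      · exfalso
        have e1 : h n (r x) = h n (r y) := hxy n
        rw [← hm, ← hn, hh0 n m hlt, hh1 n hn'] at e1
        exact zero_ne_one e1
      · exact hlt
      · exfalso
        have e1 : h m (r x) = h m (r y) := hxy m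
        rw [← hm, ← hn, hh0 m n hlt, hh1 m hm'] at e1
        exact one_ne_zero e1
    have hrr : r x = r y := by
      rw [← hm, ← hn, hmn]
    have e2 := hr2 x
    rw [hrr] at e2
    exact eqv_trans e2 (eqv_symm (hr2 y))

/-- an infinite set of a well-order contains an increasing sequence -/
theorem exists_increasing {ι : Type} [LinearOrder ι] [WellFoundedLT ι] {J : Set ι} (hJ : J.Infinite) :
    ∃ s : ℕ → ι, StrictMono s ∧ ∀ n, s n ∈ J := by
  have hJi : Infinite J := hJ.to_subtype
  obtain ⟨g, hg | hg⟩ := exists_increasing_or_nonincreasing_subseq (fun a b : J => a < b)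
    (Infinite.natEmbedding J)
  · exact ⟨fun n => (Infinite.natEmbedding J (g n)).1, fun m n hmn => hg m n hmn,
      fun n => (Infinite.natEmbedding J (g n)).2⟩
  · exfalso
    obtain ⟨x, ⟨k, rfl⟩, hmin⟩ := WellFounded.has_min (wellFounded_lt (α := J))
      (range fun n => Infinite.natEmbedding J (g n)) ⟨_, 0, rfl⟩
    have h1 := hg k (k + 1) (Nat.lt_succ_self k)
    have h2 := hmin _ ⟨k + 1, rfl⟩
    have h3 : Infinite.natEmbedding J (g k) = Infinite.natEmbedding J (g (k + 1)) :=
      le_antisymm (not_lt.1 h2) (not_lt.1 h1)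
    have h4 := g.injective ((Infinite.natEmbedding J).injective h3)
    omega

theorem pf_step {X : Type} [TopologicalSpace X] [CompactSpace X] [T2Space X]
    (Φ : Finset (X ⊕ C(X, ℝ)) → Set (X ⊕ C(X, ℝ)))
    (hgood : ∀ N, N.Nonempty → Clo Φ N → RG N Set.univ ∧ Ret N ∧ closure (pts N) ⊆ pts N)
    {ι : Type} [LinearOrder ι] [WellFoundedLT ι] (M : ι → Set (X ⊕ C(X, ℝ))) (hmono : Monotone M)
    (hclo : ∀ j, Clo Φ (M j)) (hP : ∀ j, PF (M j)) : PF (⋃ j, M j) := by
  classical
  choose Γ g hsupp heq using hP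
  obtain ⟨M', hM'⟩ : ∃ M' : ι → Set (X ⊕ C(X, ℝ)), M' = fun j => ⋃ i ∈ Iio j, M i := ⟨_, rfl⟩
  have hM'clo : ∀ j, Clo Φ (M' j) := fun j => by
    rw [hM']
    exact clo_biUnion hmono hclo (Iio j)
  have hmem' : ∀ j u, u ∈ M' j ↔ ∃ i, i < j ∧ u ∈ M i := by
    intro j u
    rw [hM']
    simp only [Set.mem_iUnion, Set.mem_Iio, exists_prop]
  have hM'sub : ∀ j, M' j ⊆ M j := by
    intro j u hu
    obtain ⟨i, hi, hui⟩ := (hmem' j u).mp hu
    exact hmono hi.le hui
  have hr : ∀ j, ∃ r : C(X, X), (M' j).Nonempty →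
      (∀ x, r x ∈ closure (pts (M' j))) ∧ ∀ x, Eqv (M' j) x (r x) := by
    intro j
    by_cases hj : (M' j).Nonempty
    · obtain ⟨h1, h2, -⟩ := hgood _ hj (hM'clo j)
      obtain ⟨r, hr1, hr2⟩ := exists_retraction h1 h2
      exact ⟨r, fun _ => ⟨hr1, hr2⟩⟩
    · exact ⟨ContinuousMap.id X, fun h => absurd h hj⟩
  choose r hr using hr
  -- two equivalent points of the closure are equal
  have huniq : ∀ j, (M' j).Nonempty → ∀ p ∈ closure (pts (M' j)), ∀ q ∈ closure (pts (M' j)),
      Eqv (M' j) p q → p = q := by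
    intro j hj p hp q hq hpq
    exact eq_of_eqv_univ ((hgood _ hj (hM'clo j)).1 p hp q hq hpq)
  have hreq : ∀ j, (M' j).Nonempty → ∀ x y, Eqv (M' j) x y → r j x = r j y := by
    intro j hj x y hxy
    obtain ⟨h1, h2⟩ := hr j hj
    exact huniq j hj _ (h1 x) _ (h1 y) (eqv_trans (eqv_symm (h2 x)) (eqv_trans hxy (h2 y)))
  obtain ⟨G, hG⟩ : ∃ G : (Σ j : {j // (M j).Nonempty}, Γ j.1) → C(X, ℝ), ∀ (j : {j // (M j).Nonempty}) (γ : Γ j.1),
      G ⟨j, γ⟩ = if (M' j.1).Nonempty then g j.1 γ - (g j.1 γ).comp (r j.1) else g j.1 γ :=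
    ⟨fun t => if (M' t.1.1).Nonempty then g t.1.1 t.2 - (g t.1.1 t.2).comp (r t.1.1) else g t.1.1 t.2,
      fun j γ => rfl⟩
  have hGpos : ∀ (j : {j // (M j).Nonempty}) (γ : Γ j.1) (x : X), (M' j.1).Nonempty →
      G ⟨j, γ⟩ x = g j.1 γ x - g j.1 γ (r j.1 x) := by
    intro j γ x hj
    rw [hG, if_pos hj]
    rfl
  have hGneg : ∀ (j : {j // (M j).Nonempty}) (γ : Γ j.1) (x : X), ¬ (M' j.1).Nonempty →
      G ⟨j, γ⟩ x = g j.1 γ x := by
    intro j γ x hj
    rw [hG, if_neg hj]
  refine ⟨_, G, ?_, ?_⟩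
  · -- finite supports
    intro x
    have hJ : {j | (M' j).Nonempty ∧ ¬ Eqv (M j) x (r j x)}.Finite := by
      by_contra hcon
      obtain ⟨s, hs, hsJ⟩ := exists_increasing hcon
      have hNclo : Clo Φ (⋃ n, M (s n)) :=
        clo_iUnion (hmono.comp hs.monotone).directed_le fun n => hclo (s n)
      have hNne : (⋃ n, M (s n)).Nonempty := by
        obtain ⟨u, hu⟩ := (hsJ 0).1
        exact ⟨u, mem_iUnion.2 ⟨0, hM'sub _ hu⟩⟩
      obtain ⟨-, h2, h3⟩ := hgood _ hNne hNclo
      obtain ⟨y, hy1, hy2⟩ := h2 x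
      obtain ⟨n, hn⟩ := mem_iUnion.1 (h3 hy1)
      have hlt : s n < s (n + 1) := hs (Nat.lt_succ_self n)
      have hyM' : y ∈ pts (M' (s (n + 1))) := (hmem' _ _).2 ⟨s n, hlt, hn⟩
      obtain ⟨hjn, hjE⟩ := hsJ (n + 1)
      obtain ⟨h4, h5⟩ := hr _ hjn
      have hxy : Eqv (M (s (n + 1))) x y := eqv_mono (subset_iUnion (fun n => M (s n)) (n + 1)) hy2
      have h6 : r (s (n + 1)) x = y := huniq _ hjn _ (h4 x) _ (subset_closure hyM')
        (eqv_trans (eqv_symm (h5 x)) (eqv_mono (hM'sub _) hxy))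
      apply hjE
      rw [h6]
      exact hxy
    have hJ0 : {j | (M j).Nonempty ∧ ¬ (M' j).Nonempty}.Finite := by
      apply Set.Subsingleton.finite
      intro a ha b hb
      rcases lt_trichotomy a b with h | h | h
      · exfalso
        obtain ⟨u, hu⟩ := ha.1
        exact hb.2 ⟨u, (hmem' b u).mpr ⟨a, h, hu⟩⟩
      · exact h
      · exfalso
        obtain ⟨u, hu⟩ := hb.1
        exact ha.2 ⟨u, (hmem' a u).mpr ⟨b, h, hu⟩⟩
    have hcov : {t : (Σ j : {j // (M j).Nonempty}, Γ j.1) | G t x ≠ 0} ⊆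
        ⋃ j ∈ (Subtype.val ⁻¹' ({j | (M' j).Nonempty ∧ ¬ Eqv (M j) x (r j x)} ∪
          {j | (M j).Nonempty ∧ ¬ (M' j).Nonempty}) : Set {j // (M j).Nonempty}),
          (fun γ => (⟨j, γ⟩ : Σ j : {j // (M j).Nonempty}, Γ j.1)) ''
            ({γ | g j.1 γ x ≠ 0} ∪ {γ | g j.1 γ (r j.1 x) ≠ 0}) := by
      rintro ⟨j, γ⟩ ht
      simp only [Set.mem_ofPred_eq] at ht
      rw [Set.mem_iUnion₂]
      by_cases hj : (M' j.1).Nonempty
      · rw [hGpos j γ x hj] at ht
        refine ⟨j, Or.inl ⟨hj, ?_⟩, γ, ?_, rfl⟩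
        · intro hE
          exact ht (sub_eq_zero.mpr ((heq j.1 x (r j.1 x)).mp hE γ))
        · by_contra hcon
          simp only [Set.mem_union, Set.mem_ofPred_eq, not_or, not_not] at hcon
          rw [hcon.1, hcon.2, sub_zero] at ht
          exact ht rfl
      · rw [hGneg j γ x hj] at ht
        exact ⟨j, Or.inr ⟨j.2, hj⟩, γ, Or.inl ht, rfl⟩
    refine Set.Finite.subset (Set.Finite.biUnion ?_ fun j _ => ?_) hcov
    · exact (hJ.union hJ0).preimage Subtype.val_injective.injOn
    · exact ((hsupp j.1 x).union (hsupp j.1 (r j.1 x))).image _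
  · intro x y
    constructor
    · rintro hxy ⟨j, γ⟩
      have h1 : Eqv (M j.1) x y := eqv_mono (Set.subset_iUnion M j.1) hxy
      have h2 := (heq j.1 x y).mp h1 γ
      by_cases hj : (M' j.1).Nonempty
      · rw [hGpos j γ x hj, hGpos j γ y hj, h2, hreq j.1 hj x y (eqv_mono (hM'sub j.1) h1)]
      · rw [hGneg j γ x hj, hGneg j γ y hj, h2]
    · intro hG2
      have key : ∀ j, Eqv (M j) x y := by
        intro j
        induction j using WellFoundedLT.induction with
        | ind j ih =>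
          have h1 : Eqv (M' j) x y := by
            intro f hf
            obtain ⟨i, hi, hfi⟩ := (hmem' j _).mp hf
            exact ih i hi f hfi
          by_cases hne : (M j).Nonempty
          · rw [heq]
            intro γ
            have h2 := hG2 ⟨⟨j, hne⟩, γ⟩
            by_cases hj : (M' j).Nonempty
            · rw [hGpos ⟨j, hne⟩ γ x hj, hGpos ⟨j, hne⟩ γ y hj] at h2
              have h3 : r j x = r j y := hreq j hj x y h1
              simp only [h3] at h2
              linarith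
            · rw [hGneg ⟨j, hne⟩ γ x hj, hGneg ⟨j, hne⟩ γ y hj] at h2
              exact h2
          · intro f hf
            exact absurd ⟨_, hf⟩ hne
      intro f hf
      obtain ⟨j, hj⟩ := Set.mem_iUnion.mp hf
      exact key j f hj

/-- a scattered compact space whose closures of size at most the continuum are Corson is Eberlein, under `DR` -/
theorem eberlein_of_dr (h : DR) (X : Type) [TopologicalSpace X] [CompactSpace X] [T2Space X] (hs : Scattered X)
    (hX : ∀ A : Set X, #A ≤ 𝔠 → IsCorson (closure A)) : EmbedsC0 X := by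
  by_cases hXne : Nonempty X
  swap
  · refine ⟨Empty, fun x => (hXne ⟨x⟩).elim, ?_, fun x => (hXne ⟨x⟩).elim, fun x => (hXne ⟨x⟩).elim, 0,
      fun x => (hXne ⟨x⟩).elim⟩
    exact continuous_pi fun γ => γ.elim
  obtain ⟨x₀⟩ := hXne
  have hpp : ∀ U : Set (X ⊕ C(X, ℝ)), #U ≤ 𝔠 → PP U := by
    intro U hU
    apply pp_of_corson
    apply hX
    refine le_trans ?_ hU
    exact mk_preimage_of_injective _ _ Sum.inl_injective
  have ht := tight_of_corson hX
  obtain ⟨Φ₀, hΦ₀, hret⟩ := exists_ret (X := X)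
  obtain ⟨Φ, hΦ, hRG⟩ := pp_all h hpp ht Φ₀ hΦ₀ hret Set.univ (fun e _ _ => subset_univ _)
  obtain ⟨Φ₁, hΦ₁, hpts⟩ := exists_pts_closed hs x₀
  have hgood : ∀ N, N.Nonempty → Clo (fun e => Φ e ∪ Φ₀ e ∪ Φ₁ e) N →
      RG N Set.univ ∧ Ret N ∧ closure (pts N) ⊆ pts N := by
    intro N hN hclo
    have h1 : RG N Set.univ := by
      refine hRG N (subset_univ _) fun e he heN => ?_
      exact inter_subset_left.trans ((subset_union_left.trans subset_union_left).trans (hclo e he heN))
    refine ⟨h1, hret N hN fun e he heN => ?_, hpts N hN (fun e he heN => ?_) fun p hp q hq hpq => ?_⟩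
    · exact (subset_union_right.trans subset_union_left).trans (hclo e he heN)
    · exact subset_union_right.trans (hclo e he heN)
    · exact eq_of_eqv_univ (h1 p hp q hq hpq)
  obtain ⟨Γ, g, h1, h2⟩ := fil (Φ := fun e => Φ e ∪ Φ₀ e ∪ Φ₁ e) (fun e => ((hΦ e).union (hΦ₀ e)).union (hΦ₁ e)) PF
    (fun N hN hNc => pf_countable hNc (fun hne => (hgood N hne hN).1) (fun hne => (hgood N hne hN).2.1)
      (fun hne => (hgood N hne hN).2.2))
    (fun ι _ _ M hm hc hP => pf_step _ hgood M hm hc hP) Set.univ (fun e _ _ => Set.subset_univ _)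
  have hpos : ∀ t : ℝ, 0 < 1 + |t| := fun t => by positivity
  have hinj : ∀ a b : ℝ, a / (1 + |a|) = b / (1 + |b|) → a = b := by
    intro a b hab
    rw [div_eq_div_iff (hpos a).ne' (hpos b).ne'] at hab
    have habs : |a| = |b| := by
      have h3 := congrArg abs hab
      rw [abs_mul, abs_mul, abs_of_pos (hpos b), abs_of_pos (hpos a)] at h3
      nlinarith
    rw [habs] at hab
    exact mul_right_cancel₀ (hpos b).ne' hab
  refine ⟨Γ, fun x γ => g γ x / (1 + |g γ x|), ?_, fun x y hxy => ?_, fun x => ?_, 1, fun x γ => ?_⟩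
  · refine continuous_pi fun γ => (g γ).continuous.div (continuous_const.add (g γ).continuous.abs) fun x => ?_
    exact (hpos _).ne'
  · refine eq_of_eqv_univ ((h2 x y).2 fun γ => ?_)
    exact hinj _ _ (congrFun hxy γ)
  · refine tendsto_nhds_of_eventually_eq ?_
    rw [Filter.eventually_cofinite]
    refine (h1 x).subset fun γ hγ => ?_
    intro h0
    apply hγ
    beta_reduce
    rw [h0]
    simp
  · rw [abs_div, abs_of_pos (hpos _), div_le_one (hpos _)]
    linarith [abs_nonneg (g γ x)]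

open Pool.Agent.Helper15.CQ in
/-- the space of a set of sequences is scattered -/
theorem scattered_XX {D : Type} (A : Set (ℕ → D)) : Scattered (XX A) := by
  classical
  have hopen : ∀ j : List D ⊕ (ℕ → D), IsOpen {y : XX A | y.1 j = true} := by
    intro j
    have h1 : Continuous fun y : XX A => y.1 j := (continuous_apply j).comp continuous_subtype_val
    have h2 : {y : XX A | y.1 j = true} = (fun y : XX A => y.1 j) ⁻¹' {true} := by
      ext y
      simp
    rw [h2]
    exact (isOpen_discrete _).preimage h1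
  intro S hS
  by_cases h1 : ∃ x ∈ S, ∃ l, x.1 = xl A l
  · obtain ⟨x, hx, l, hxl⟩ := h1
    refine ⟨x, hx, {y | y.1 (Sum.inl l) = true}, hopen _, ?_⟩
    ext y
    constructor
    · rintro ⟨hy, -⟩
      have hy : y.1 (Sum.inl l) = true := hy
      refine Subtype.ext ?_
      rcases y.2 with h | ⟨b, -, h⟩ | ⟨k, h⟩
      · rw [h] at hy
        exact absurd hy (by simp [z0])
      · rw [h] at hy
        exact absurd hy (by simp)
      · rw [h, xl_inl] at hy
        rw [h, hxl, hy]
    · rintro rfl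
      refine ⟨?_, hx⟩
      change y.1 (Sum.inl l) = true
      rw [hxl, xl_inl]
  push Not at h1
  by_cases h2 : ∃ x ∈ S, ∃ a, x.1 = pa a
  · obtain ⟨x, hx, a, hxa⟩ := h2
    refine ⟨x, hx, {y | y.1 (Sum.inr a) = true}, hopen _, ?_⟩
    ext y
    constructor
    · rintro ⟨hy, hyS⟩
      have hy : y.1 (Sum.inr a) = true := hy
      refine Subtype.ext ?_
      rcases y.2 with h | ⟨b, -, h⟩ | ⟨k, h⟩
      · rw [h] at hy
        exact absurd hy (by simp [z0])
      · rw [h, pa_inr] at hy
        rw [h, hxa, hy]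
      · exact absurd h (h1 y hyS k)
    · rintro rfl
      refine ⟨?_, hx⟩
      change y.1 (Sum.inr a) = true
      rw [hxa, pa_inr]
  push Not at h2
  obtain ⟨x, hx⟩ := hS
  have hz : ∀ y ∈ S, y.1 = z0 := by
    intro y hy
    rcases y.2 with h | ⟨b, -, h⟩ | ⟨k, h⟩
    · exact h
    · exact absurd h (h2 y hy b)
    · exact absurd h (h1 y hy k)
  refine ⟨x, hx, Set.univ, isOpen_univ, ?_⟩
  ext y
  constructor
  · rintro ⟨-, hy⟩
    exact Subtype.ext ((hz y hy).trans (hz x hx).symm)
  · rintro rfl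
    exact ⟨mem_univ _, hx⟩

theorem corson_of_embeds {X : Type} [TopologicalSpace X] (h : EmbedsC0 X) : IsCorson X := by
  obtain ⟨Γ, f, h1, h2, h3, -⟩ := h
  exact ⟨Γ, f, h1, h2, fun x => Pool.Agent.Helper93.EC.countable_support (h3 x)⟩

open Pool.Agent.Helper15.CQ in
/-- THE QUESTION FOR SCATTERED SPACES IS EQUIVALENT TO `FR` -/
theorem scattered_iff :
    (∀ (X : Type) [TopologicalSpace X] [CompactSpace X] [T2Space X], Scattered X →
      (∀ A : Set X, #A ≤ 𝔠 → EmbedsC0 (closure A)) → EmbedsC0 X) ↔ FR := by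
  constructor
  · intro h
    apply fr_of_dr
    intro D A hA
    exact sd_of_corson A (corson_of_embeds (h (XX A) (scattered_XX A) (small_embeds A hA)))
  · intro h X _ _ _ hs hX
    exact eberlein_of_dr (dr_of_fr h) X hs fun A hA => corson_of_embeds (hX A hA)

end Pool.Agent.Helper15.QD
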