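import Pool.Agent.Helper15.QD.PAll
import Pool.Agent.Helper15.QD.TightC
import Pool.Agent.Helper15.QD.SmallC
import Pool.Agent.Helper15.QD.Ladder
import Pool.Agent.Helper15.QD.Scat
import Pool.Agent.Helper19.QR.Sigma

/-!
# Corson compactness reflects to closures of size at most the continuum if and only if sigma-discreteness does
-/

set_option autoImplicit false

open Set Cardinal

namespace Pool.Agent.Helper15.QD

open Pool.Agent.Helper19.QR
open Pool.Agent.Helper15.CQ (DR IsCorson dr_of_corson dr_of_rc)
open Pool.Agent.Helper93.EC (EmbedsC0)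

/-- a compact space whose closures of size at most the continuum are Corson -/
theorem corson_of_dr (h : DR) (X : Type) [TopologicalSpace X] [CompactSpace X] [T2Space X]
    (hX : ∀ A : Set X, #A ≤ 𝔠 → IsCorson (closure A)) : IsCorson X := by
  have hpp : ∀ U : Set (X ⊕ C(X, ℝ)), #U ≤ 𝔠 → PP U := by
    intro U hU
    apply pp_of_corson
    apply hX
    refine le_trans ?_ hU
    exact mk_preimage_of_injective _ _ Sum.inl_injective
  have ht := tight_of_corson hX
  obtain ⟨Φ₀, hΦ₀, hret⟩ := exists_ret (X := X)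
  obtain ⟨Φ, hΦ, hRG⟩ := pp_all h hpp ht Φ₀ hΦ₀ hret univ (fun e _ _ => subset_univ _)
  obtain ⟨Γ, g, hc, hsep⟩ := exists_sigma ht (fun e => Φ e ∪ Φ₀ e)
    (fun e => (hΦ e).union (hΦ₀ e)) (by
      intro N hN hclo
      refine ⟨hRG N (subset_univ _) ?_, hret N hN ?_⟩
      · intro e he heN
        exact inter_subset_left.trans (subset_union_left.trans (hclo e he heN))
      · intro e he heN
        exact subset_union_right.trans (hclo e he heN))
  exact ⟨Γ, fun x γ => g γ x, continuous_pi fun γ => (g γ).continuous,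
    fun x y hxy => hsep x y fun γ => congrFun hxy γ, hc⟩

/-- (*) implies Corson if and only if `FR` -/
theorem corson_of_embeds_iff :
    (∀ (X : Type) [TopologicalSpace X] [CompactSpace X] [T2Space X],
      (∀ A : Set X, #A ≤ 𝔠 → EmbedsC0 (closure A)) → IsCorson X) ↔ FR :=
  ⟨fun h => fr_of_dr (dr_of_corson h), fun h X _ _ _ hX =>
    corson_of_dr (dr_of_fr h) X fun A hA => corson_of_embeds (hX A hA)⟩

/-- Corson compactness reflects if and only if `FR` -/
theorem corson_of_corson_iff :
    (∀ (X : Type) [TopologicalSpace X] [CompactSpace X] [T2Space X],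
      (∀ A : Set X, #A ≤ 𝔠 → IsCorson (closure A)) → IsCorson X) ↔ FR :=
  ⟨fun h => corson_of_embeds_iff.1 fun X _ _ _ hX => h X fun A hA => corson_of_embeds (hX A hA),
    fun h X _ _ _ hX => corson_of_dr (dr_of_fr h) X hX⟩

theorem fr_of_rc (h : RC) : FR := fr_of_dr (dr_of_rc h)

end Pool.Agent.Helper15.QD
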