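import Pool.Agent.Helper19.QR.Main

/-!
# Fine measures give clique reflection

Suppose every set `T` carries a countably additive probability measure on all subsets of `Set T`, concentrated on
the sets of size at most the continuum, with `x ∈ A` for almost all `A`, for every `x : T`. Then clique
reflection holds: colour a vertex `v` by a colour `n` and a `k` such that the set of all `A` in which `v` has the colour `n` has
measure at least `1 / (k + 1)`; an infinite clique of one colour gives, by Fatou, an `A` with an infinite clique of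
one colour.
-/

set_option autoImplicit false

open Set Cardinal MeasureTheory

namespace Pool.Agent.Helper15.QD

open Pool.Agent.Helper19.QR

/-- a point in infinitely many sets of measure at least `c` -/
theorem exists_infinitely_often {Ω : Type} (μ : @Measure Ω ⊤) (h1 : μ Set.univ = 1) (E : ℕ → Set Ω)
    {c : ENNReal} (hc : 0 < c) (hE : ∀ i, c ≤ μ (E i)) : ∃ x, ∀ N, ∃ i, N ≤ i ∧ x ∈ E i := by
  letI : MeasurableSpace Ω := ⊤
  have hanti : Antitone fun N => ⋃ i ∈ Ici N, E i := by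
    intro a b hab x hx
    simp only [mem_iUnion, mem_Ici] at hx ⊢
    obtain ⟨i, hi, hx⟩ := hx
    exact ⟨i, hab.trans hi, hx⟩
  have hfin : μ (⋃ i ∈ Ici 0, E i) ≠ ⊤ := by
    refine ne_top_of_le_ne_top ?_ (measure_mono (subset_univ _))
    rw [h1]
    exact ENNReal.one_ne_top
  have hlim := tendsto_measure_iInter_atTop (μ := μ) (s := fun N => ⋃ i ∈ Ici N, E i)
    (fun N => MeasurableSpace.measurableSet_top.nullMeasurableSet) hanti ⟨0, hfin⟩
  have hge : c ≤ μ (⋂ N, ⋃ i ∈ Ici N, E i) := by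
    refine ge_of_tendsto' hlim fun N => (hE N).trans (measure_mono ?_)
    exact fun x hx => mem_biUnion (x := N) (mem_Ici.2 le_rfl) hx
  have hne : (⋂ N, ⋃ i ∈ Ici N, E i).Nonempty := by
    by_contra hcon
    rw [not_nonempty_iff_eq_empty] at hcon
    rw [hcon, measure_empty] at hge
    exact absurd hge (not_le.2 hc)
  obtain ⟨x, hx⟩ := hne
  refine ⟨x, fun N => ?_⟩
  have h2 := mem_iInter.1 hx N
  simp only [mem_iUnion, mem_Ici] at h2
  obtain ⟨i, hi, hx⟩ := h2
  exact ⟨i, hi, hx⟩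

theorem cr_of_fine (h : ∀ T : Type, ∃ μ : @Measure (Set T) ⊤,
    μ Set.univ = 1 ∧ μ {A | ¬ (#A ≤ 𝔠)} = 0 ∧ ∀ x : T, μ {A | x ∉ A} = 0) : CR := by
  classical
  intro V S hS hloc
  obtain ⟨μ, hμ1, hμ2, hμ3⟩ := h V
  letI : MeasurableSpace (Set V) := ⊤
  have hf : ∀ A : Set V, ∃ f : V → ℕ, #A ≤ 𝔠 → ∀ (n : ℕ) (B : Set V), B ⊆ A → (∀ v ∈ B, f v = n) →
      (∀ F : Finset V, (↑F : Set V) ⊆ B → F ∈ S) → B.Finite := by
    intro A
    by_cases hA : #A ≤ 𝔠
    · obtain ⟨f, hf⟩ := hloc A hA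
      exact ⟨f, fun _ => hf⟩
    · exact ⟨fun _ => 0, fun h => absurd h hA⟩
  choose f hf using hf
  -- some colour has positive measure
  have hpos : ∀ v : V, ∃ (n k : ℕ), ((k : ENNReal) + 1)⁻¹ ≤ μ {A | #A ≤ 𝔠 ∧ v ∈ A ∧ f A v = n} := by
    intro v
    have h1 : ∃ n, 0 < μ {A | #A ≤ 𝔠 ∧ v ∈ A ∧ f A v = n} := by
      by_contra hcon
      push Not at hcon
      have h2 : μ (⋃ n, {A | #A ≤ 𝔠 ∧ v ∈ A ∧ f A v = n}) = 0 :=
        measure_iUnion_null fun n => le_antisymm (hcon n) zero_le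
      have h3 : (Set.univ : Set (Set V)) ⊆ (⋃ n, {A | #A ≤ 𝔠 ∧ v ∈ A ∧ f A v = n}) ∪
          ({A | ¬ (#A ≤ 𝔠)} ∪ {A | v ∉ A}) := by
        intro A _
        by_cases hA : #A ≤ 𝔠
        · by_cases hv : v ∈ A
          · exact Or.inl (mem_iUnion.2 ⟨f A v, hA, hv, rfl⟩)
          · exact Or.inr (Or.inr hv)
        · exact Or.inr (Or.inl hA)
      have h4 := measure_mono (μ := μ) h3
      rw [hμ1, measure_union_null h2 (measure_union_null hμ2 (hμ3 v))] at h4
      exact absurd h4 (not_le.2 zero_lt_one)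
    obtain ⟨n, hn⟩ := h1
    obtain ⟨k, hk⟩ := ENNReal.exists_inv_nat_lt hn.ne'
    refine ⟨n, k, le_trans ?_ hk.le⟩
    exact ENNReal.inv_le_inv.2 le_self_add
  choose n k hnk using hpos
  refine ⟨fun v => Nat.pair (n v) (k v), fun m B _ hB hcl => ?_⟩
  by_contra hinf
  have hBi : Infinite B := Set.infinite_coe_iff.2 hinf
  obtain ⟨s⟩ : Nonempty (ℕ ↪ B) := ⟨Infinite.natEmbedding B⟩
  have hns : ∀ i, n (s i) = m.unpair.1 ∧ k (s i) = m.unpair.2 := by
    intro i
    have h1 : Nat.pair (n (s i)) (k (s i)) = m := hB _ (s i).2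
    rw [← h1]
    simp
  obtain ⟨A, hA⟩ := exists_infinitely_often μ hμ1
    (fun i => {A | #A ≤ 𝔠 ∧ ((s i : B) : V) ∈ A ∧ f A (s i) = m.unpair.1})
    (c := ((m.unpair.2 : ENNReal) + 1)⁻¹) (by
      rw [ENNReal.inv_pos]
      exact ENNReal.add_ne_top.2 ⟨ENNReal.natCast_ne_top _, ENNReal.one_ne_top⟩) (fun i => by
      have h1 := hnk (s i)
      rw [(hns i).1, (hns i).2] at h1
      exact h1)
  have hAc : #A ≤ 𝔠 := by
    obtain ⟨i, -, hi⟩ := hA 0
    exact hi.1
  have hfin := hf A hAc m.unpair.1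
    ((fun i => ((s i : B) : V)) '' {i | ((s i : B) : V) ∈ A ∧ f A (s i) = m.unpair.1}) (by
      rintro _ ⟨i, hi, rfl⟩
      exact hi.1) (by
      rintro _ ⟨i, hi, rfl⟩
      exact hi.2) (fun F hF => hcl F (hF.trans (by
      rintro _ ⟨i, hi, rfl⟩
      exact (s i).2)))
  have hinj : Function.Injective fun i => ((s i : B) : V) := Subtype.val_injective.comp s.injective
  have h2 := hfin.of_finite_image hinj.injOn
  obtain ⟨N, hN⟩ := h2.bddAbove
  obtain ⟨i, hi, hiA⟩ := hA (N + 1)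
  have h3 := hN (show i ∈ {i | ((s i : B) : V) ∈ A ∧ f A (s i) = m.unpair.1} from ⟨hiA.2.1, hiA.2.2⟩)
  omega

/-- FINE MEASURES SUFFICE FOR THE QUESTION -/
theorem q1_of_fine (h : ∀ T : Type, ∃ μ : @Measure (Set T) ⊤,
    μ Set.univ = 1 ∧ μ {A | ¬ (#A ≤ 𝔠)} = 0 ∧ ∀ x : T, μ {A | x ∉ A} = 0) : Q1 :=
  q1_of_cr (cr_of_fine h)

end Pool.Agent.Helper15.QD
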