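import Pool.Agent.Helper15.QD.Enlarge
import Pool.Agent.Helper19.QR.Glue

/-!
# Block QR-PU: the induction step, singular cardinality of uncountable cofinality

`pp_uncountable`: `U` is the increasing union of `V j`, `j ∈ ι` well-ordered, of smaller
cardinality, `#ι < #U`, and every countable subset of `ι` is bounded. For every `j` let `B j ⊇ V j` be given by
`enlarge` (`κ = max #(V j) ℵ₁`); `PP (B j)` by the hypothesis; let `Φ_j` be the operation. Let `n : ι → U` be
injective. Let `Φ e` be the union of `Φ₀ e` and of the sets `Φ_j e' ∩ B j`, where `n j ∈ e` and `e' ⊆ e`.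
`U` is closed under `Φ`.

Claim: if `N ⊆ U` is closed under `Φ` and contains all `n j`, then `RG N U`. Let
`p, q ∈ closure (pts N)`, `Eqv N p q`. By tightness there is a countable `D ⊆ pts N` with `p, q ∈ closure D`, and
`inl '' D ⊆ V j` for some `j` (countable subsets of `ι` are bounded). `N ∩ B j` is closed under `Φ_j ∩ B j`
(for nonempty `e' ⊆ N ∩ B j` use `e = e' ∪ {n j}`), so `RG (N ∩ B j) (B j)`, and `RG (B j) U`; as
`p, q ∈ closure (pts (N ∩ B j))`: `Eqv N p q` gives `Eqv (B j) p q` and then `Eqv U p q`.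

Let `M j = cl Φ ({n i | i ∈ ι} ∪ V j) ⊆ U`: increasing, union `U`, cardinality
`≤ max (#ι + #(V j)) ℵ₀ < #U`, so `PP (M j)` by the hypothesis (closed under `Φ₀`); nonempty, so `Ret`. Nonempty
unions of subfamilies are closed under `Φ` and contain all `n j`, so they are `RG` in `U`. `glue`.
-/

set_option autoImplicit false

open Set Cardinal

namespace Pool.Agent.Helper15.QD

open Pool.Agent.Helper19.QR
open Pool.Agent.Helper15.CQ (DR)

variable {X : Type} [TopologicalSpace X] [CompactSpace X] [T2Space X]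

theorem pp_uncountable (h : DR) (hpp : ∀ U : Set (X ⊕ C(X, ℝ)), #U ≤ 𝔠 → PP U) (ht : Tight X)
    (Φ₀ : Finset (X ⊕ C(X, ℝ)) → Set (X ⊕ C(X, ℝ))) (hΦ₀ : CV Φ₀)
    (hret : ∀ N, N.Nonempty → Clo Φ₀ N → Ret N)
    (U : Set (X ⊕ C(X, ℝ))) (hU : Clo Φ₀ U) (h𝔠 : 𝔠 < #U)
    {ι : Type} [LinearOrder ι] [WellFoundedLT ι] (hι : #ι < #U)
    (hcof : ∀ s : ℕ → ι, ∃ j, ∀ n, s n ≤ j)
    (V : ι → Set (X ⊕ C(X, ℝ))) (hm : Monotone V) (hV : ⋃ j, V j = U) (hcard : ∀ j, #(V j) < #U)
    (ih : ∀ U' : Set (X ⊕ C(X, ℝ)), Clo Φ₀ U' → #U' < #U → PP U') : PP U := by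
  classical
  -- the index set is nonempty
  have hU0 : ℵ₀ ≤ #U := aleph0_le_continuum.trans h𝔠.le
  have hUne : U.Nonempty := by
    rw [nonempty_iff_ne_empty]
    rintro rfl
    rw [mk_eq_zero] at h𝔠
    exact absurd h𝔠 (not_lt.2 zero_le)
  have hιne : Nonempty ι := by
    obtain ⟨x, hx⟩ := hUne
    rw [← hV] at hx
    obtain ⟨j, _⟩ := mem_iUnion.1 hx
    exact ⟨j⟩
  have hVU : ∀ j, V j ⊆ U := fun j => hV ▸ subset_iUnion V j
  have hℵ : ℵ₁ < #U := lt_of_le_of_lt aleph_one_le_continuum h𝔠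
  -- the sets `B j`
  have hB : ∀ j, ∃ B' : Set (X ⊕ C(X, ℝ)), V j ⊆ B' ∧ B' ⊆ U ∧ Clo Φ₀ B' ∧ RG B' U ∧
      #B' ≤ max #(V j) ℵ₁ := fun j =>
    enlarge h hpp ht Φ₀ hΦ₀ U hU (V j) (hVU j) (max #(V j) ℵ₁) (le_max_right _ _)
      (le_max_left _ _)
  choose B hVB hBU hBclo hBRG hBcard using hB
  have hPPB : ∀ j, PP (B j) := fun j =>
    ih (B j) (hBclo j) (lt_of_le_of_lt (hBcard j) (max_lt (hcard j) hℵ))
  choose Ψ hΨcv hΨ using hPPB
  -- the injection
  have hinj : Nonempty (ι ↪ U) := by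
    rw [← Cardinal.le_def]
    exact hι.le
  obtain ⟨n₀⟩ := hinj
  set n : ι → X ⊕ C(X, ℝ) := fun j => (n₀ j : X ⊕ C(X, ℝ)) with hn
  have hninj : Function.Injective n := fun a b hab => n₀.injective (Subtype.ext hab)
  have hnU : ∀ j, n j ∈ U := fun j => (n₀ j).2
  -- the operation
  set Φ : Finset (X ⊕ C(X, ℝ)) → Set (X ⊕ C(X, ℝ)) := fun e =>
    Φ₀ e ∪ ⋃ j ∈ {j : ι | n j ∈ e}, ⋃ e' ∈ (↑e.powerset : Set (Finset (X ⊕ C(X, ℝ)))),
      Ψ j e' ∩ B j with hΦ
  have hΦcv : CV Φ := by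
    intro e
    refine (hΦ₀ e).union ?_
    have hfin : {j : ι | n j ∈ e}.Finite :=
      Set.Finite.preimage (hninj.injOn) (Finset.finite_toSet e)
    refine hfin.countable.biUnion fun j _ => ?_
    refine (Finset.countable_toSet _).biUnion fun e' _ => ?_
    exact (hΨcv j e').mono inter_subset_left
  have hΦ₀le : ∀ e, Φ₀ e ⊆ Φ e := fun e => subset_union_left
  have hUΦ : Clo Φ U := by
    intro e he heU
    refine union_subset (hU e he heU) ?_
    refine iUnion₂_subset fun j _ => iUnion₂_subset fun e' _ => ?_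
    exact inter_subset_right.trans (hBU j)
  -- the claim
  have claim : ∀ N : Set (X ⊕ C(X, ℝ)), N ⊆ U → Clo Φ N → (∀ j, n j ∈ N) → RG N U := by
    intro N hNU hNΦ hNn p hp q hq hpq
    obtain ⟨D₁, hD₁, hD₁c, hpD₁⟩ := ht (pts N) p hp
    obtain ⟨D₂, hD₂, hD₂c, hqD₂⟩ := ht (pts N) q hq
    have hDne : (D₁ ∪ D₂).Nonempty := by
      have : D₁.Nonempty := by
        rw [← closure_nonempty_iff]
        exact ⟨p, hpD₁⟩
      exact this.mono subset_union_left
    obtain ⟨s, hs⟩ := (hD₁c.union hD₂c).exists_eq_range hDne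
    have hsj : ∀ m : ℕ, ∃ j, (Sum.inl (s m) : X ⊕ C(X, ℝ)) ∈ V j := by
      intro m
      have h1 : s m ∈ D₁ ∪ D₂ := hs ▸ mem_range_self m
      have h2 : s m ∈ pts N := (union_subset hD₁ hD₂) h1
      have h3 : (Sum.inl (s m) : X ⊕ C(X, ℝ)) ∈ U := hNU h2
      rw [← hV] at h3
      exact mem_iUnion.1 h3
    choose jj hjj using hsj
    obtain ⟨j, hj⟩ := hcof jj
    have hDsub : D₁ ∪ D₂ ⊆ pts (N ∩ B j) := by
      intro x hx
      have hxN : x ∈ pts N := (union_subset hD₁ hD₂) hx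
      rw [hs] at hx
      obtain ⟨m, rfl⟩ := hx
      exact ⟨hxN, hVB j (hm (hj m) (hjj m))⟩
    have hclo : Clo (fun e => Ψ j e ∩ B j) (N ∩ B j) := by
      intro e' he' he'sub
      refine subset_inter ?_ inter_subset_right
      have h1 : Φ (insert (n j) e') ⊆ N := by
        refine hNΦ _ (Finset.insert_nonempty _ _) ?_
        rw [Finset.coe_insert]
        exact insert_subset (hNn j) (he'sub.trans inter_subset_left)
      refine Subset.trans ?_ h1
      intro x hx
      refine Or.inr ?_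
      refine mem_iUnion₂.2 ⟨j, Finset.mem_insert_self _ _, mem_iUnion₂.2 ⟨e', ?_, hx⟩⟩
      exact Finset.mem_coe.2 (Finset.mem_powerset.2 (Finset.subset_insert _ _))
    have hRG := hΨ j (N ∩ B j) inter_subset_right hclo
    have hp' : p ∈ closure (pts (N ∩ B j)) :=
      closure_mono (subset_union_left.trans hDsub) hpD₁
    have hq' : q ∈ closure (pts (N ∩ B j)) :=
      closure_mono (subset_union_right.trans hDsub) hqD₂
    have hBe : Eqv (B j) p q := hRG p hp' q hq' fun f hf => hpq f hf.1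
    have hsubB : pts (N ∩ B j) ⊆ pts (B j) := fun x hx => hx.2
    exact hBRG j p (closure_mono hsubB hp') q (closure_mono hsubB hq') hBe
  -- the sets `M j`
  set M : ι → Set (X ⊕ C(X, ℝ)) := fun j => cl Φ (range n ∪ V j) with hM
  have hMU : ∀ j, M j ⊆ U := fun j =>
    cl_min (union_subset (range_subset_iff.2 hnU) (hVU j)) hUΦ
  have hMmono : Monotone M := fun i j hij => cl_mono (union_subset_union_right _ (hm hij))
  have hMclo : ∀ j, Clo Φ (M j) := fun j => clo_cl _
  have hMunion : ⋃ j, M j = U := by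
    refine Subset.antisymm (iUnion_subset hMU) ?_
    rw [← hV]
    exact iUnion_mono fun j => subset_union_right.trans (subset_cl _)
  have hMn : ∀ j i, n i ∈ M j := fun j i => subset_cl _ (Or.inl (mem_range_self i))
  have hMcard : ∀ j, #(M j) < #U := by
    intro j
    refine lt_of_le_of_lt (mk_cl_le hΦcv _) ?_
    refine max_lt ?_ (lt_of_le_of_lt aleph0_le_continuum h𝔠)
    refine lt_of_le_of_lt (mk_union_le _ _) ?_
    refine Cardinal.add_lt_of_lt hU0 ?_ (hcard j)
    exact lt_of_le_of_lt mk_range_le hι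
  refine glue ht U M hMmono hMunion ?_ ?_ ?_
  · intro J
    rcases J.eq_empty_or_nonempty with rfl | ⟨j, hj⟩
    · intro p hp
      have : pts (⋃ j ∈ (∅ : Set ι), M j) = ∅ := by
        ext x
        simp [pts]
      rw [this, closure_empty] at hp
      exact absurd hp (notMem_empty p)
    · refine claim _ (iUnion₂_subset fun i _ => hMU i) (clo_biUnion hMmono hMclo J) ?_
      intro i
      exact mem_iUnion₂.2 ⟨j, hj, hMn j i⟩
  · intro j
    exact hret (M j) ⟨n (Classical.arbitrary ι), hMn j _⟩ (clo_mono hΦ₀le (hMclo j))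
  · intro j
    exact ih (M j) (clo_mono hΦ₀le (hMclo j)) (hMcard j)

end Pool.Agent.Helper15.QD
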