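import Pool.Agent.Helper19.QR.CliqThin
import Pool.Agent.Helper19.QR.CliqLoc
import Pool.Agent.Helper15.CQ.Space

/-!
# The question for Corson compact spaces gives clique reflection

Under the local hypothesis of clique reflection all cliques are countable, so the space of cliques is Corson.
-/

set_option autoImplicit false

open Set Cardinal

namespace Pool.Agent.Helper15.QD

open Pool.Agent.Helper19.QR
open Pool.Agent.Helper15.CQ (IsCorson)
open Pool.Agent.Helper93.EC (EmbedsC0)

/-- all cliques are countable -/
theorem countable_clique {V : Type} (S : Set (Finset V)) (hloc : ∀ W : Set V, #W ≤ 𝔠 → Thin S W)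
    {x : V → Bool} (hx : x ∈ KS S) : {v | x v = true}.Countable := by
  by_contra hc
  have h1 : ℵ₁ ≤ #{v | x v = true} := by
    rw [← succ_aleph0]
    exact Order.succ_le_of_lt (not_le.1 fun h2 => hc (le_aleph0_iff_set_countable.1 h2))
  obtain ⟨W, hW, hW'⟩ := le_mk_iff_exists_subset.1 h1
  obtain ⟨f, hf⟩ := hloc W (by rw [hW']; exact aleph_one_le_continuum)
  have h3 : W.Countable := by
    have h2 : W ⊆ ⋃ n : ℕ, {v | v ∈ W ∧ f v = n} := fun v hv => mem_iUnion.2 ⟨f v, hv, rfl⟩
    refine (countable_iUnion fun n => Set.Finite.countable ?_).mono h2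
    exact hf n _ (fun v hv => hv.1) (fun v hv => hv.2) fun F hF => hx F fun v hv => hW (hF hv).1
  have h4 := le_aleph0_iff_set_countable.2 h3
  rw [hW', ← succ_aleph0] at h4
  exact absurd h4 (not_le.2 (Order.lt_succ _))

/-- the space of cliques is Corson -/
theorem corson_KS {V : Type} (S : Set (Finset V)) (hloc : ∀ W : Set V, #W ≤ 𝔠 → Thin S W) :
    IsCorson (KS S) := by
  refine ⟨V, fun x v => if x.1 v then 1 else 0, ?_, ?_, fun x => ?_⟩
  · refine continuous_pi fun v => ?_
    have h1 : Continuous fun x : KS S => x.1 v := (continuous_apply v).comp continuous_subtype_val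
    exact (continuous_of_discreteTopology (f := fun b : Bool => if b then (1 : ℝ) else 0)).comp h1
  · intro x y hxy
    refine Subtype.ext (funext fun v => ?_)
    have h1 := congrFun hxy v
    cases h2 : x.1 v <;> cases h3 : y.1 v <;> simp [h2, h3] at h1 ⊢
  · refine (countable_clique S hloc x.2).mono fun v hv => ?_
    by_contra h
    simp only [mem_ofPred_eq, Bool.not_eq_true] at h
    simp [h] at hv

/-- THE QUESTION FOR CORSON COMPACT SPACES GIVES CLIQUE REFLECTION -/
theorem cr_of_q1c (h : ∀ (X : Type) [TopologicalSpace X] [CompactSpace X] [T2Space X], IsCorson X →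
    (∀ A : Set X, #A ≤ 𝔠 → EmbedsC0 (closure A)) → EmbedsC0 X) : CR := by
  intro V S hS hloc
  by_cases h0 : ∅ ∈ S
  · have hc : CompactSpace (KS S) := isCompact_iff_compactSpace.1 (isClosed_KS S).isCompact
    exact thin_of_embeds S hS h0 (h (KS S) (corson_KS S hloc) fun A hA => embeds_local S hS h0 hloc A hA)
  · refine ⟨fun _ => 0, fun n A _ _ hA => ?_⟩
    exact absurd (hA ∅ (by simp)) h0

end Pool.Agent.Helper15.QD
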