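import Pool.Agent.Helper15.CQ.DR
import Pool.Agent.Helper19.QR.Choice
import Pool.Agent.Helper19.QR.Club

/-!
# Bad stages of an increasing family miss a club, from reflection of sigma-discreteness

The statement is that of `Helper19/QR/Reg.lean`, with `DR` in place of `CR`.
-/

set_option autoImplicit false

open Set Cardinal

namespace Pool.Agent.Helper15.QD

open Pool.Agent.Helper19.QR
open Pool.Agent.Helper15.CQ (DR tc_pre)

private theorem strict_upper15 {α : Type} [LinearOrder α] {t : Set α} (ht : #t < Order.cof α) :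
    ∃ b, ∀ x ∈ t, x < b := by
  have h : ¬ IsCofinal t := fun h => (Order.cof_le h).not_gt ht
  rw [not_isCofinal_iff] at h
  obtain ⟨b, hb⟩ := h
  exact ⟨b, fun x hx => by simpa using hb x hx⟩

private theorem exists_gt15 {κ : Cardinal.{0}} (hκ : κ.IsRegular) (h0 : ℵ₀ < κ) (s : Set κ.ord.ToType)
    (hs : s.Finite) : ∃ b, ∀ x ∈ s, x < b := by
  have hcof : Order.cof κ.ord.ToType = κ := by
    rw [Ordinal.cof_toType, hκ.cof_ord]
  refine strict_upper15 ?_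
  rw [hcof]
  exact (lt_aleph0_iff_set_finite.2 hs).trans h0

/-- the sets of names and lists -/
def KK {κ : Cardinal.{0}} {D : Type} (T : κ.ord.ToType → Set D) (α : κ.ord.ToType) :
    Set (κ.ord.ToType ⊕ List D) :=
  {x | ∀ β, x = Sum.inl β → β < α} ∩ {x | ∀ l, x = Sum.inr l → ∀ y ∈ l, y ∈ T α}

theorem inl_mem_KK {κ : Cardinal.{0}} {D : Type} (T : κ.ord.ToType → Set D) (α β : κ.ord.ToType) :
    (Sum.inl β : κ.ord.ToType ⊕ List D) ∈ KK T α ↔ β < α := by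
  constructor
  · intro h
    exact h.1 β rfl
  · intro h
    refine ⟨fun γ hγ => ?_, fun l hl => ?_⟩
    · rw [← Sum.inl_injective hγ]
      exact h
    · exact absurd hl (by simp)

theorem inr_mem_KK {κ : Cardinal.{0}} {D : Type} (T : κ.ord.ToType → Set D) (α : κ.ord.ToType)
    (l : List D) : (Sum.inr l : κ.ord.ToType ⊕ List D) ∈ KK T α ↔ ∀ y ∈ l, y ∈ T α := by
  constructor
  · intro h
    exact h.2 l rfl
  · intro h
    refine ⟨fun γ hγ => ?_, fun l' hl => ?_⟩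
    · exact absurd hγ (by simp)
    · rw [← Sum.inr_injective hl]
      exact h

theorem card_KK {κ : Cardinal.{0}} (h0 : ℵ₀ < κ) {D : Type} (T : κ.ord.ToType → Set D)
    (hT : ∀ α, #(T α) < κ) (α : κ.ord.ToType) : #(KK T α) < κ := by
  have h1 : KK T α ⊆ Sum.inl '' Iio α ∪ range (fun l : List (T α) => (Sum.inr (l.map Subtype.val) : κ.ord.ToType ⊕ List D)) := by
    rintro (β | l) h
    · exact Or.inl ⟨β, (inl_mem_KK T α β).1 h, rfl⟩
    · refine Or.inr ?_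
      rw [inr_mem_KK] at h
      refine ⟨l.attach.map fun y => ⟨y.1, h y.1 y.2⟩, ?_⟩
      simp
  refine (mk_le_mk_of_subset h1).trans_lt ((mk_union_le _ _).trans_lt ?_)
  refine add_lt_of_lt h0.le ?_ ?_
  · refine mk_image_le.trans_lt ?_
    have h := mk_Iio_lt α (by simp)
    rwa [mk_ord_toType] at h
  · refine mk_range_le.trans_lt ((mk_list_le_max _).trans_lt (max_lt h0 (hT α)))

section

variable {X : Type} [TopologicalSpace X]

theorem bad_misses_club (h : DR) (hpp : ∀ U : Set (X ⊕ C(X, ℝ)), #U ≤ 𝔠 → PP U)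
    {κ : Cardinal.{0}} (hκ : κ.IsRegular) (h0 : ℵ₀ < κ)
    (M : κ.ord.ToType → Set (X ⊕ C(X, ℝ))) (hM : Monotone M) (hcard : ∀ α, #(M α) < κ)
    (E : Set κ.ord.ToType) (c : κ.ord.ToType → ℕ → X ⊕ C(X, ℝ)) (g : κ.ord.ToType → C(X, ℝ))
    (p q : κ.ord.ToType → X)
    (hc : ∀ α ∈ E, ∀ n, ∃ β < α, c α n ∈ M β)
    (hp : ∀ α ∈ E, p α ∈ closure (pts (range (c α))))
    (hq : ∀ α ∈ E, q α ∈ closure (pts (range (c α))))
    (hpq : ∀ α ∈ E, ∀ β < α, Eqv (M β) (p α) (q α))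
    (hg : ∀ α ∈ E, g α (p α) ≠ g α (q α))
    (hgM : ∀ α ∈ E, ∃ β, Sum.inr (g α) ∈ M β) :
    ∃ C : Set κ.ord.ToType, (∀ α, ∃ β ∈ C, α < β) ∧
      (∀ α, (∃ β, β < α) → (∀ β < α, ∃ γ ∈ C, β < γ ∧ γ < α) → α ∈ C) ∧ Disjoint C E := by
  classical
  rcases E.eq_empty_or_nonempty with hE | ⟨α₀, hα₀⟩
  · refine ⟨univ, fun α => ?_, fun α _ _ => mem_univ α, by rw [hE]; exact disjoint_empty _⟩
    obtain ⟨b, hb⟩ := exists_gt15 hκ h0 {α} (finite_singleton α)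
    exact ⟨b, mem_univ b, hb α rfl⟩
  -- the elements which occur
  obtain ⟨L, hL⟩ : ∃ L : κ.ord.ToType → Set (X ⊕ C(X, ℝ)), ∀ α x, x ∈ L α ↔ ∃ β < α, x ∈ M β :=
    ⟨fun α => {x | ∃ β < α, x ∈ M β}, fun _ _ => Iff.rfl⟩
  have hLm : Monotone L := by
    intro α α' hαα' x hx
    rw [hL] at hx ⊢
    obtain ⟨β, hβ, hx⟩ := hx
    exact ⟨β, hβ.trans_le hαα', hx⟩
  let R : Type := {x : X ⊕ C(X, ℝ) // ∃ β, x ∈ M β}
  have hcR : ∀ α ∈ E, ∀ n, ∃ β, c α n ∈ M β := fun α hα n => by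
    obtain ⟨β, -, hβ⟩ := hc α hα n
    exact ⟨β, hβ⟩
  let r0 : R := ⟨c α₀ 0, hcR α₀ hα₀ 0⟩
  obtain ⟨c', hc'⟩ : ∃ c' : κ.ord.ToType → ℕ → R, ∀ α ∈ E, ∀ n, (c' α n).1 = c α n := by
    refine ⟨fun α n => if h : ∃ β, c α n ∈ M β then ⟨c α n, h⟩ else r0, fun α hα n => ?_⟩
    beta_reduce
    rw [dif_pos (hcR α hα n)]
  have hne : Nonempty κ.ord.ToType := ⟨α₀⟩
  choose! η hη using hgM
  obtain ⟨E', hE'⟩ : ∃ E' : Set κ.ord.ToType, ∀ α, α ∈ E' ↔ α ∈ E ∧ ∀ β < α, β ∈ E → η β < α :=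
    ⟨{α | α ∈ E ∧ ∀ β < α, β ∈ E → η β < α}, fun _ => Iff.rfl⟩
  have hEE : ∀ {α}, α ∈ E' → α ∈ E := fun hα => ((hE' _).1 hα).1
  obtain ⟨Φ, hΦ, hΦ'⟩ := tc_pre h E' c' (by
    intro J hJ hJc
    obtain ⟨f, hf, hf'⟩ := choice hpp L hLm c g p q J hJc
      (fun α hα n => (hL _ _).2 (hc α (hEE (hJ hα)) n))
      (fun α hα => hp α (hEE (hJ hα))) (fun α hα => hq α (hEE (hJ hα)))
      (fun α hα φ hφ => by
        obtain ⟨β, hβ, hφ'⟩ := (hL _ _).1 hφ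
        exact hpq α (hEE (hJ hα)) β hβ φ hφ')
      (fun α hα => hg α (hEE (hJ hα)))
      (fun α hα β hβ hαβ => (hL _ _).2 ⟨η α, ((hE' β).1 (hJ hβ)).2 α hαβ (hEE (hJ hα)),
        hη α (hEE (hJ hα))⟩) (fun _ => ∅)
    have hn : ∀ α, ∃ n : ℕ, α ∈ J → (List.range (n + 1)).map (c α) = f α := by
      intro α
      by_cases hα : α ∈ J
      · obtain ⟨n, hn⟩ := (hf α hα).1
        exact ⟨n, fun _ => hn⟩
      · exact ⟨0, fun h => absurd h hα⟩
    choose n hn using hn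
    refine ⟨fun α => (List.range (n α + 1)).map (c' α), fun α _ => ⟨n α, rfl⟩, ?_⟩
    intro α hα β hβ hαβ
    apply hf' hα hβ
    have h1 := congrArg (List.map (Subtype.val : R → X ⊕ C(X, ℝ))) hαβ
    simp only [List.map_map] at h1
    have h2 : ∀ α ∈ J, (Subtype.val : R → X ⊕ C(X, ℝ)) ∘ c' α = c α := fun α hα =>
      funext fun n => hc' α (hEE (hJ hα)) n
    rw [h2 α hα, h2 β hβ, hn α hα, hn β hβ] at h1
    exact h1)
  obtain ⟨Ψ, hΨ⟩ : ∃ Ψ : Finset (κ.ord.ToType ⊕ List R) → Set (κ.ord.ToType ⊕ List R), ∀ e,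
      Ψ e = Φ e ∪ (fun β => Sum.inl (η β)) '' {β | Sum.inl β ∈ e ∧ β ∈ E} := ⟨_, fun _ => rfl⟩
  have hΨc : CV Ψ := by
    intro e
    rw [hΨ]
    refine (hΦ e).union (Countable.image ?_ _)
    exact ((e.countable_toSet).preimage Sum.inl_injective).mono fun β hβ => hβ.1
  obtain ⟨T, hT⟩ : ∃ T : κ.ord.ToType → Set R, ∀ α x, x ∈ T α ↔ ∃ β < α, x.1 ∈ M β :=
    ⟨fun α => {x | ∃ β < α, x.1 ∈ M β}, fun _ _ => Iff.rfl⟩
  have hTm : Monotone T := by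
    intro α α' hαα' x hx
    rw [hT] at hx ⊢
    obtain ⟨β, hβ, hx⟩ := hx
    exact ⟨β, hβ.trans_le hαα', hx⟩
  have hTc : ∀ α, #(T α) < κ := by
    intro α
    have h1 : #(T α) ≤ #(⋃ β : Iio α, M β) := by
      refine mk_le_of_injective (f := fun x : T α => (⟨x.1.1, ?_⟩ : ⋃ β : Iio α, M β)) ?_
      · obtain ⟨β, hβ, hx⟩ := (hT α x.1).1 x.2
        exact mem_iUnion.2 ⟨⟨β, hβ⟩, hx⟩
      · intro x y hxy
        have := congrArg Subtype.val hxy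
        exact Subtype.ext (Subtype.ext this)
    have h3 : #(Iio α) < κ := by
      have h := mk_Iio_lt α (by simp)
      rwa [mk_ord_toType] at h
    refine h1.trans_lt ?_
    refine (mk_iUnion_le_sum_mk).trans_lt ?_
    refine sum_lt_of_isRegular hκ h3 fun β => hcard β
  have hKm : Monotone (KK T) := by
    rintro α α' hαα' (β | l) hx
    · rw [inl_mem_KK] at hx ⊢
      exact hx.trans_le hαα'
    · rw [inr_mem_KK] at hx ⊢
      exact fun y hy => hTm hαα' (hx y hy)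
  have hb : ∀ x : R, ∃ β, x.1 ∈ M β := fun x => x.2
  choose b hb using hb
  obtain ⟨hC1, hC2⟩ := unbounded_clo hκ h0 (KK T) hKm (card_KK h0 T hTc) (by
    rintro (β | l)
    · obtain ⟨α, hα⟩ := exists_gt15 hκ h0 {β} (finite_singleton β)
      exact ⟨α, (inl_mem_KK T α β).2 (hα β rfl)⟩
    · obtain ⟨α, hα⟩ := exists_gt15 hκ h0 (b '' {y | y ∈ l}) ((List.finite_toSet l).image b)
      refine ⟨α, (inr_mem_KK T α l).2 fun y hy => (hT α y).2 ⟨b y, hα _ ⟨y, hy, rfl⟩, hb y⟩⟩) (by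
    rintro α ⟨β₀, hβ₀⟩ hlim (β | l) hx
    · rw [inl_mem_KK] at hx
      obtain ⟨γ, hγ, hβγ⟩ := hlim β hx
      exact ⟨γ, hγ, (inl_mem_KK T γ β).2 hβγ⟩
    · rw [inr_mem_KK] at hx
      induction l with
      | nil => exact ⟨β₀, hβ₀, (inr_mem_KK T β₀ _).2 (by simp)⟩
      | cons y l ih =>
        obtain ⟨γ, hγ, hγl⟩ := ih fun z hz => hx z (List.mem_cons_of_mem _ hz)
        obtain ⟨β, hβ, hy⟩ := (hT α y).1 (hx y List.mem_cons_self)
        obtain ⟨δ, hδ, hβδ⟩ := hlim β hβ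
        refine ⟨max γ δ, max_lt hγ hδ, (inr_mem_KK T _ _).2 fun z hz => ?_⟩
        rcases List.mem_cons.1 hz with rfl | hz
        · exact (hT _ _).2 ⟨β, hβδ.trans_le (le_max_right _ _), hy⟩
        · exact hTm (le_max_left _ _) ((inr_mem_KK T γ l).1 hγl z hz)) Ψ hΨc
  refine ⟨{α | Clo Ψ (KK T α)}, fun α => ?_, fun α hα hlim => ?_, ?_⟩
  · obtain ⟨β, hβ, hβ'⟩ := hC1 α
    exact ⟨β, hβ', hβ⟩
  · refine hC2 α hα fun β hβ => ?_
    obtain ⟨γ, hγ, hβγ, hγα⟩ := hlim β hβ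
    exact ⟨γ, hγα, hβγ, hγ⟩
  · rw [disjoint_left]
    intro α hα hαE
    have hα : Clo Ψ (KK T α) := hα
    have h1 : ∀ β < α, β ∈ E → η β < α := by
      intro β hβ hβE
      refine (inl_mem_KK T α (η β)).1 (hα {Sum.inl β} (Finset.singleton_nonempty _) ?_ ?_)
      · rw [Finset.coe_singleton, singleton_subset_iff]
        exact (inl_mem_KK T α β).2 hβ
      · rw [hΨ]
        exact Or.inr ⟨β, ⟨Finset.mem_singleton_self _, hβE⟩, rfl⟩
    have h2 : Clo Φ (KK T α) := fun e he hs => by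
      refine subset_trans ?_ (hα e he hs)
      rw [hΨ]
      exact subset_union_left
    obtain ⟨l, ⟨n, hn⟩, hl⟩ := hΦ' _ h2 α ((hE' α).2 ⟨hαE, h1⟩) fun h => lt_irrefl α ((inl_mem_KK T α α).1 h)
    apply hl
    rw [inr_mem_KK, ← hn]
    intro y hy
    simp only [List.mem_map] at hy
    obtain ⟨k, -, rfl⟩ := hy
    rw [hT]
    obtain ⟨β, hβ, hβ'⟩ := hc α hαE k
    refine ⟨β, hβ, ?_⟩
    rw [hc' α hαE k]
    exact hβ'

end

end Pool.Agent.Helper15.QD
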